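import Mathlib

/-!
# Part B of the full solution of MP_00fcbb_al (project AQB): definitions

Blueprint: /team-store/00fcbb_h23.md, PART B.
-/

set_option autoImplicit false

open scoped commutatorElement

namespace Pool.Agent.AQB

/-- bounded real functions -/
def Bdd {X : Type*} (f : X → ℝ) : Prop := ∃ c : ℝ, ∀ x, |f x| ≤ c

/-- A left invariant mean on the bounded functions on `G`. -/
structure Mean (G : Type*) [Group G] where
  m : (G → ℝ) → ℝ
  add : ∀ f f' : G → ℝ, Bdd f → Bdd f' → m (f + f') = m f + m f'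
  smul : ∀ (a : ℝ) (f : G → ℝ), Bdd f → m (a • f) = a * m f
  nonneg : ∀ f : G → ℝ, Bdd f → (∀ x, 0 ≤ f x) → 0 ≤ m f
  one : m 1 = 1
  left : ∀ (g : G) (f : G → ℝ), Bdd f → m (fun x => f (g⁻¹ * x)) = m f

/-- amenable groups -/
def Amen (G : Type*) [Group G] : Prop := Nonempty (Mean G)

/-- the mean is also right invariant -/
def Mean.RightInv {G : Type*} [Group G] (M : Mean G) : Prop :=
  ∀ (g : G) (f : G → ℝ), Bdd f → M.m (fun x => f (x * g)) = M.m f

/-- the mean of a set -/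
noncomputable def Mean.mu {G : Type*} [Group G] (M : Mean G) (S : Set G) : ℝ :=
  M.m (S.indicator 1)

/-- the translate `g S` -/
def tr {G : Type*} [Group G] (g : G) (S : Set G) : Set G := {x | g⁻¹ * x ∈ S}

/-- the subgroup is metabelian -/
def Metab {G : Type*} [Group G] (L : Subgroup G) : Prop :=
  ∀ x ∈ L, ∀ y ∈ L, ∀ z ∈ L, ∀ t ∈ L, ⁅⁅x, y⁆, ⁅z, t⁆⁆ = 1

/-- the subgroup is centre-by-metabelian -/
def CbM {G : Type*} [Group G] (L : Subgroup G) : Prop :=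
  ∀ x ∈ L, ∀ y ∈ L, ∀ z ∈ L, ∀ t ∈ L, ∀ v ∈ L, ⁅⁅⁅x, y⁆, ⁅z, t⁆⁆, v⁆ = 1

/-- `G` is a finite union of double cosets `A t C`, `A` and `C` abelian. -/
structure DC (G : Type*) [Group G] where
  A : Subgroup G
  C : Subgroup G
  T : Finset G
  hA : ∀ x ∈ A, ∀ y ∈ A, x * y = y * x
  hC : ∀ x ∈ C, ∀ y ∈ C, x * y = y * x
  hT : ∀ g : G, ∃ a ∈ A, ∃ t ∈ T, ∃ c ∈ C, g = a * t * c

/-- Situation (*) of the blueprint. -/
structure Star (G : Type*) [Group G] extends DC G where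
  W : Subgroup G
  nW : W.Normal
  hWC : ∀ g : G, ∃ w ∈ W, ∃ c ∈ C, g = w * c
  hW : ∀ N : Subgroup G, N.Normal → N ≠ ⊥ → W ≤ N
  hS : ∀ N : Subgroup G, N.Normal → CbM N → N = ⊥
  hV : ∀ L : Subgroup G, L.FiniteIndex → ¬ Metab L

/-- `D e h h' = (h e h⁻¹) (h' e h'⁻¹)⁻¹` -/
def D {G : Type*} [Group G] (e h h' : G) : G := h * e * h⁻¹ * (h' * e * h'⁻¹)⁻¹

/-- The outcome of step B1 (pigeonhole). -/
structure TData {G : Type*} [Group G] (M : Mean G) (W : Subgroup G) where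
  e : G
  T : Set G
  he : e ≠ 1
  pos : 0 < M.mu T
  t1 : ∀ u v q : G, (tr u T ∩ tr v T ∩ tr q T).Nonempty → Commute (D e u q) (D e v q)
  wt : ∀ g : G, ∃ w ∈ W, tr g T = tr w T

end Pool.Agent.AQB
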