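import Pool.Agent.AQA.Main
import Pool.Agent.AQB.Defs

/-!
# A product of two almost abelian groups is amenable (from the fixed point theorem of Part A)
-/

set_option autoImplicit false

universe u

namespace Pool.Agent.AQB

/-- the bounded functions -/
abbrev BF (G : Type u) : Type u := {f : G → ℝ // Bdd f}

private theorem bdd_left {G : Type u} [Group G] (g : G) {f : G → ℝ} (h : Bdd f) :
    Bdd (fun x => f (g⁻¹ * x)) := by
  obtain ⟨c, hc⟩ := h
  exact ⟨c, fun x => hc _⟩

private theorem bdd_add {G : Type u} {f f' : G → ℝ} (h : Bdd f) (h' : Bdd f') : Bdd (f + f') := by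
  obtain ⟨c, hc⟩ := h
  obtain ⟨c', hc'⟩ := h'
  exact ⟨c + c', fun x => (abs_add_le _ _).trans (add_le_add (hc x) (hc' x))⟩

private theorem bdd_smul {G : Type u} {f : G → ℝ} (a : ℝ) (h : Bdd f) : Bdd (a • f) := by
  obtain ⟨c, hc⟩ := h
  refine ⟨|a| * c, fun x => ?_⟩
  rw [Pi.smul_apply, smul_eq_mul, abs_mul]
  exact mul_le_mul_of_nonneg_left (hc x) (abs_nonneg _)

private theorem bdd_one {G : Type u} : Bdd (1 : G → ℝ) := ⟨1, fun x => by simp⟩

/-- left translation of bounded functions -/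
instance instBFAction {G : Type u} [Group G] : MulAction G (BF G) where
  smul g f := ⟨fun x => f.1 (g⁻¹ * x), bdd_left g f.2⟩
  one_smul f := by
    apply Subtype.ext
    funext x
    show f.1 ((1 : G)⁻¹ * x) = f.1 x
    simp
  mul_smul g h f := by
    apply Subtype.ext
    funext x
    show f.1 ((g * h)⁻¹ * x) = f.1 (h⁻¹ * (g⁻¹ * x))
    rw [mul_inv_rev, mul_assoc]

/-- **Amenability.** -/
theorem amen_of_product {G : Type u} [Group G] {A B : Subgroup G}
    (hAB : ∀ g : G, ∃ a ∈ A, ∃ b ∈ B, g = a * b)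
    (hA : ∃ H : Subgroup G, H ≤ A ∧ (H.subgroupOf A).FiniteIndex ∧
      ∀ x ∈ H, ∀ y ∈ H, x * y = y * x)
    (hB : ∃ K : Subgroup G, K ≤ B ∧ (K.subgroupOf B).FiniteIndex ∧
      ∀ x ∈ K, ∀ y ∈ K, x * y = y * x) : Amen G := by
  classical
  let Q : Set (BF G → ℝ) := {x | (∀ f f' h : BF G, h.1 = f.1 + f'.1 → x h = x f + x f') ∧
    (∀ (a : ℝ) (f h : BF G), h.1 = a • f.1 → x h = a * x f) ∧
    (∀ f : BF G, (∀ y, 0 ≤ f.1 y) → 0 ≤ x f) ∧ ∀ f : BF G, f.1 = 1 → x f = 1}
  have hQ : Pool.Agent.AQA.CCI G Q := by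
    refine ⟨?_, ?_, ?_⟩
    · choose c hc using fun f : BF G => f.2
      have h1 : IsClosed Q := by
        have e : Q = (⋂ (f : BF G) (f' : BF G) (h : BF G) (_ : h.1 = f.1 + f'.1),
            {x : BF G → ℝ | x h = x f + x f'}) ∩
            ((⋂ (a : ℝ) (f : BF G) (h : BF G) (_ : h.1 = a • f.1),
              {x : BF G → ℝ | x h = a * x f}) ∩
            ((⋂ (f : BF G) (_ : ∀ y, 0 ≤ f.1 y), {x : BF G → ℝ | 0 ≤ x f}) ∩
            ⋂ (f : BF G) (_ : f.1 = 1), {x : BF G → ℝ | x f = 1})) := by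
          ext x
          simp only [Q, Set.mem_inter_iff, Set.mem_iInter, Set.mem_setOf_eq]
        rw [e]
        refine IsClosed.inter ?_ (IsClosed.inter ?_ (IsClosed.inter ?_ ?_))
        · refine isClosed_iInter fun f => isClosed_iInter fun f' => isClosed_iInter fun h =>
            isClosed_iInter fun _ => isClosed_eq (continuous_apply h)
              ((continuous_apply f).add (continuous_apply f'))
        · refine isClosed_iInter fun a => isClosed_iInter fun f => isClosed_iInter fun h =>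
            isClosed_iInter fun _ => isClosed_eq (continuous_apply h)
              (continuous_const.mul (continuous_apply f))
        · exact isClosed_iInter fun f => isClosed_iInter fun _ =>
            isClosed_le continuous_const (continuous_apply f)
        · exact isClosed_iInter fun f => isClosed_iInter fun _ =>
            isClosed_eq (continuous_apply f) continuous_const
      have h2 : Q ⊆ Set.univ.pi fun f : BF G => Set.Icc (-c f) (c f) := by
        rintro x ⟨hadd, hsmul, hnn, hone⟩ f -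
        have h3 : x ⟨c f • (1 : G → ℝ), bdd_smul _ bdd_one⟩ = c f := by
          rw [hsmul (c f) ⟨1, bdd_one⟩ _ rfl, hone ⟨1, bdd_one⟩ rfl, mul_one]
        have h4 : x ⟨(-1 : ℝ) • f.1, bdd_smul _ f.2⟩ = -x f := by
          rw [hsmul (-1) f _ rfl, neg_one_mul]
        have h5 := hadd ⟨c f • (1 : G → ℝ), bdd_smul _ bdd_one⟩ f
          ⟨c f • (1 : G → ℝ) + f.1, bdd_add (bdd_smul _ bdd_one) f.2⟩ rfl
        have h6 := hadd ⟨c f • (1 : G → ℝ), bdd_smul _ bdd_one⟩ ⟨(-1 : ℝ) • f.1, bdd_smul _ f.2⟩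
          ⟨c f • (1 : G → ℝ) + (-1 : ℝ) • f.1, bdd_add (bdd_smul _ bdd_one) (bdd_smul _ f.2)⟩ rfl
        have h7 := hnn ⟨c f • (1 : G → ℝ) + f.1, bdd_add (bdd_smul _ bdd_one) f.2⟩ (by
          intro y
          have := neg_le_of_abs_le (hc f y)
          show 0 ≤ c f * 1 + f.1 y
          linarith)
        have h8 := hnn ⟨c f • (1 : G → ℝ) + (-1 : ℝ) • f.1,
          bdd_add (bdd_smul _ bdd_one) (bdd_smul _ f.2)⟩ (by
          intro y
          have := le_of_abs_le (hc f y)
          show 0 ≤ c f * 1 + (-1) * f.1 y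
          linarith)
        rw [h5, h3] at h7
        rw [h6, h3, h4] at h8
        constructor <;> linarith
      exact (isCompact_univ_pi fun f => isCompact_Icc).of_isClosed_subset h1 h2
    · rintro x ⟨h1, h2, h3, h4⟩ y ⟨k1, k2, k3, k4⟩ s t hs ht hst
      refine ⟨fun f f' h e => ?_, fun a f h e => ?_, fun f hf => ?_, fun f hf => ?_⟩
      · simp only [Pi.add_apply, Pi.smul_apply, smul_eq_mul]
        rw [h1 f f' h e, k1 f f' h e]
        ring
      · simp only [Pi.add_apply, Pi.smul_apply, smul_eq_mul]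
        rw [h2 a f h e, k2 a f h e]
        ring
      · simp only [Pi.add_apply, Pi.smul_apply, smul_eq_mul]
        exact add_nonneg (mul_nonneg hs (h3 f hf)) (mul_nonneg ht (k3 f hf))
      · simp only [Pi.add_apply, Pi.smul_apply, smul_eq_mul]
        rw [h4 f hf, k4 f hf, mul_one, mul_one, hst]
    · rintro g x ⟨h1, h2, h3, h4⟩
      refine ⟨fun f f' h e => ?_, fun a f h e => ?_, fun f hf => ?_, fun f hf => ?_⟩
      · refine h1 _ _ _ ?_
        funext y
        show h.1 (g⁻¹⁻¹ * y) = f.1 (g⁻¹⁻¹ * y) + f'.1 (g⁻¹⁻¹ * y)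
        rw [e]
        rfl
      · refine h2 a _ _ ?_
        funext y
        show h.1 (g⁻¹⁻¹ * y) = a * f.1 (g⁻¹⁻¹ * y)
        rw [e]
        rfl
      · exact h3 _ fun y => hf _
      · refine h4 _ ?_
        funext y
        show f.1 (g⁻¹⁻¹ * y) = 1
        rw [hf]
        rfl
  have hne : Q.Nonempty := by
    refine ⟨fun f => f.1 1, fun f f' h e => ?_, fun a f h e => ?_, fun f hf => hf 1, fun f hf => ?_⟩
    · show h.1 1 = f.1 1 + f'.1 1
      rw [e]
      rfl
    · show h.1 1 = a * f.1 1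
      rw [e]
      rfl
    · show f.1 1 = 1
      rw [hf]
      rfl
  obtain ⟨x, ⟨h1, h2, h3, h4⟩, hx⟩ := Pool.Agent.AQA.fixedPoint hAB hA hB hQ hne
  refine ⟨⟨fun f => if h : Bdd f then x ⟨f, h⟩ else 0, ?_, ?_, ?_, ?_, ?_⟩⟩
  · intro f f' hf hf'
    simp only [dif_pos hf, dif_pos hf', dif_pos (bdd_add hf hf')]
    exact h1 _ _ _ rfl
  · intro a f hf
    simp only [dif_pos hf, dif_pos (bdd_smul a hf)]
    exact h2 _ _ _ rfl
  · intro f hf h
    simp only [dif_pos hf]
    exact h3 _ h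
  · simp only [dif_pos (bdd_one (G := G))]
    exact h4 _ rfl
  · intro g f hf
    simp only [dif_pos hf, dif_pos (bdd_left g hf)]
    have h5 := congrFun (hx g⁻¹) ⟨f, hf⟩
    rw [Pool.Agent.AQA.act_apply, inv_inv] at h5
    exact h5

end Pool.Agent.AQB
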