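import Pool.Agent.AQB.Defs

/-!
# Amenability passes to subgroups and quotients (project AQB, MP_00fcbb_al)

* `Amen.of_injective`, `Amen.subgroup`: pull the mean back along a retraction `r : G → H` with
  `r (h x) = h r x`;
* `Amen.of_surjective`, `Amen.quotient`: push the mean forward.
-/

set_option autoImplicit false

namespace Pool.Agent.AQB

private theorem amenSub_comp {X Y : Type*} {f : X → ℝ} (hf : Bdd f) (r : Y → X) : Bdd (fun y => f (r y)) := by
  obtain ⟨c, hc⟩ := hf
  exact ⟨c, fun y => hc (r y)⟩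

/-- Transport of a mean along an equivariant map `r : G → H`, `r (σ h * x) = h * r x`. -/
def Mean.push {G H : Type*} [Group G] [Group H] (M : Mean G) (r : G → H) (σ : H → G)
    (hr : ∀ (h : H) (x : G), r ((σ h)⁻¹ * x) = h⁻¹ * r x) : Mean H where
  m f := M.m (fun x => f (r x))
  add f f' hf hf' := by
    have := M.add (fun x => f (r x)) (fun x => f' (r x)) (amenSub_comp hf r) (amenSub_comp hf' r)
    exact this
  smul a f hf := by
    have := M.smul a (fun x => f (r x)) (amenSub_comp hf r)
    exact this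
  nonneg f hf h0 := M.nonneg _ (amenSub_comp hf r) (fun x => h0 (r x))
  one := by
    have : (fun x : G => (1 : H → ℝ) (r x)) = 1 := by
      funext x; rfl
    rw [this, M.one]
  left h f hf := by
    have h1 := M.left (σ h) (fun x => f (r x)) (amenSub_comp hf r)
    have h2 : (fun x => f (h⁻¹ * r x)) = (fun x => (fun x => f (r x)) ((σ h)⁻¹ * x)) := by
      funext x
      show f (h⁻¹ * r x) = f (r ((σ h)⁻¹ * x))
      rw [hr]
    show M.m (fun x => f (h⁻¹ * r x)) = M.m (fun x => f (r x))
    rw [h2]
    exact h1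

/-- Amenability passes to quotients (surjective images). -/
theorem Amen.of_surjective {G H : Type*} [Group G] [Group H] (f : G →* H)
    (hf : Function.Surjective f) (h : Amen G) : Amen H := by
  obtain ⟨M⟩ := h
  refine ⟨M.push (fun x => f x) (fun y => (hf y).choose) ?_⟩
  intro y x
  have := (hf y).choose_spec
  simp only [map_mul, map_inv]
  rw [this]

/-- Amenability passes to quotients. -/
theorem Amen.quotient {G : Type*} [Group G] (h : Amen G) (N : Subgroup G) [N.Normal] :
    Amen (G ⧸ N) :=
  h.of_surjective (QuotientGroup.mk' N) (QuotientGroup.mk'_surjective N)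

/-- Amenability passes to subgroups. -/
theorem Amen.subgroup {G : Type*} [Group G] (h : Amen G) (H : Subgroup G) : Amen H := by
  obtain ⟨M⟩ := h
  have key : ∀ x : G, x * (Quotient.out (QuotientGroup.mk x⁻¹ : G ⧸ H)) ∈ H := by
    intro x
    have h1 : (QuotientGroup.mk x⁻¹ : G ⧸ H) =
        QuotientGroup.mk (Quotient.out (QuotientGroup.mk x⁻¹ : G ⧸ H)) :=
      (QuotientGroup.out_eq' _).symm
    have h2 := QuotientGroup.eq.1 h1
    simpa using h2
  refine ⟨M.push (fun x => (⟨x * (Quotient.out (QuotientGroup.mk x⁻¹ : G ⧸ H)), key x⟩ : H))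
    (fun y => (y : G)) ?_⟩
  intro y x
  apply Subtype.ext
  have h3 : (QuotientGroup.mk ((y : G)⁻¹ * x)⁻¹ : G ⧸ H) = QuotientGroup.mk x⁻¹ := by
    rw [QuotientGroup.eq]
    have : ((((y : G)⁻¹ * x)⁻¹)⁻¹ * x⁻¹) = (y : G)⁻¹ := by group
    rw [this]
    exact H.inv_mem y.2
  show (y : G)⁻¹ * x * (Quotient.out (QuotientGroup.mk ((y : G)⁻¹ * x)⁻¹ : G ⧸ H)) =
    (y : G)⁻¹ * (x * (Quotient.out (QuotientGroup.mk x⁻¹ : G ⧸ H)))
  rw [h3, mul_assoc]

/-- Amenability is invariant under isomorphism. -/
theorem Amen.of_equiv {G H : Type*} [Group G] [Group H] (e : G ≃* H) (h : Amen G) : Amen H :=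
  h.of_surjective e.toMonoidHom e.surjective

/-- Amenability passes to groups embedding in an amenable group. -/
theorem Amen.of_injective {G H : Type*} [Group G] [Group H] (f : H →* G)
    (hf : Function.Injective f) (h : Amen G) : Amen H :=
  (h.subgroup f.range).of_equiv (MonoidHom.ofInjective hf).symm

end Pool.Agent.AQB
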