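import Pool.Agent.AQB.Defs
import Pool.Agent.helper60.AQC.Bohr

/-!
# AQB-BIa: bi-invariant totally bounded metrics on a double coset group (approximate Ito)

PROOF. Let `X i` be the sets `A t C`. `U := {g | ∀ δ > 0, ∃ a ∈ A, ∃ c ∈ C, d g (a * c) < δ}`; `A U C ⊆ U`
(bi-invariance), `A ⊆ U`. For `t ∈ T` with `t ∉ U` there is `δ_t > 0` with `d t (a * c) ≥ δ_t` for all `a`, `c`; choose
`ε > 0` with `2 ε ≤ δ_t` for all these `t` (finitely many). Put `O := {g | d g 1 < ε}`; it is closed under inverses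
and conjugation.
(1) `U O ⊆ U`: `g ∈ U`, `o ∈ O`, `g * o = a' * t * c'`. If `t ∈ U` then `g * o ∈ A U C ⊆ U`. Otherwise
`d t (a'⁻¹ g c'⁻¹) = d (a' t c') g = d (g o) g = d o 1 < ε` and `a'⁻¹ g c'⁻¹ ∈ U` is within `ε` of some `a * c`:
`d t (a * c) < 2 ε ≤ δ_t`, contradiction.
(2) `O' := Subgroup.closure O` is normal and has finite index (the finite set `F` for `ε`: `g⁻¹`... every `g` is
`f * o` with `f ∈ F`, `o = f⁻¹ g ∈ O`). `L := A ⊔ O'` = `A O'` has finite index and `L ⊆ U` (induction on the number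
of factors from `O`, using (1) and `A ⊆ U`).
(3) If `l ∈ L`, `a ∈ A`, `c ∈ C`, `d l (a * c) < ε` then `c ∈ L`: `(a⁻¹ l)⁻¹ c ∈ O`.
(4) Let `Γ = ℕ → L` (pointwise group) and `N = {x | d (x n) 1 → 0}`, a normal subgroup. In `Γ ⧸ N` let `A'`, `C'` be
the images of the sequences with values in `A`, `C ⊓ L`. `A'`, `C'` are abelian and every element of `Γ ⧸ N` is in `A' C'`
(choose `d (x n) (a n * c n) < min ε (1/(n+1))`, use (3)). By Ito's theorem `⁅⁅x,y⁆,⁅z,t⁆⁆ = 1` in `Γ ⧸ N`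
(`ito_group` below). For constant sequences this says `d ⁅⁅x,y⁆,⁅z,t⁆⁆ 1 = 0`, so `⁅⁅x,y⁆,⁅z,t⁆⁆ = 1` by `hsep`.
-/

set_option autoImplicit false

open scoped commutatorElement

namespace Pool.Agent.AQB

open Pool.Agent.helper60.AQC

/-- Ito's theorem. -/
theorem ito_group {G : Type*} [Group G] (A C : Subgroup G) (hA : ∀ x ∈ A, ∀ y ∈ A, x * y = y * x)
    (hC : ∀ x ∈ C, ∀ y ∈ C, x * y = y * x) (h : ∀ g : G, ∃ a ∈ A, ∃ c ∈ C, g = a * c)
    (x y z t : G) : ⁅⁅x, y⁆, ⁅z, t⁆⁆ = 1 := by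
  have h4 := Pool.Agent.Results.MP_00fcbb_al.ProductBound.four hA hC ![x⁻¹, y⁻¹, z⁻¹, t⁻¹]
    (fun i => h _) (fun i => h _) (fun i j => h _) 0 1 2 3
  rw [commutatorElement_eq_one_iff_commute]
  simpa using h4

theorem bi_lemma {G : Type*} [Group G] (S : DC G) (d : G → G → ℝ) (hd0 : ∀ x, d x x = 0)
    (hsym : ∀ x y, d x y = d y x) (htri : ∀ x y z, d x z ≤ d x y + d y z)
    (hl : ∀ g x y, d (g * x) (g * y) = d x y) (hr : ∀ g x y, d (x * g) (y * g) = d x y)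
    (htb : ∀ ε > 0, ∃ F : Finset G, ∀ g, ∃ f ∈ F, d g f < ε)
    (hsep : ∀ x, d x 1 = 0 → x = 1) :
    ∃ L : Subgroup G, L.FiniteIndex ∧ Metab L := by
  have hℓ : InvLen (fun g : G => d g 1) := by
    refine ⟨hd0 1, fun g h => ?_, fun g => ?_, fun g h => ?_, fun ε hε => ?_⟩
    · have h1 := htri (g * h) h 1
      have h2 : d (g * h) h = d g 1 := by
        have := hr h g 1
        rwa [one_mul] at this
      linarith
    · have := hl g g⁻¹ 1
      rw [mul_inv_cancel, mul_one] at this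
      rw [← this, hsym]
    · have h1 := hl h (g * h⁻¹) h⁻¹
      have h2 := hr h⁻¹ g 1
      rw [mul_inv_cancel] at h1
      rw [one_mul] at h2
      rw [mul_assoc, h1, h2]
    · obtain ⟨F, hF⟩ := htb ε hε
      refine ⟨F, fun g => ?_⟩
      obtain ⟨f, hf, h⟩ := hF g
      refine ⟨f, hf, ?_⟩
      have := hl f (f⁻¹ * g) 1
      rw [mul_inv_cancel_left, mul_one] at this
      rwa [← this]
  obtain ⟨ε, hε, hsmall⟩ := exists_small hℓ S.hA S.hC (T := (S.T : Set G)) S.T.finite_toSet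
    (fun g => by
      obtain ⟨a, ha, t, ht, c, hc, h⟩ := S.hT g
      exact ⟨t, ht, a, ha, c, hc, h⟩)
  let U : Set G := {g | d g 1 < ε}
  let U₁ : Set G := {g | ∃ x ∈ U, ∃ y ∈ U, g = ⁅x, y⁆}
  have hUconj : ∀ x ∈ U, ∀ g : G, g * x * g⁻¹ ∈ U := fun x hx g => by
    have := hℓ.conj x g
    show d (g * x * g⁻¹) 1 < ε
    rw [this]
    exact hx
  have hU₁conj : ∀ x ∈ U₁, ∀ g : G, g * x * g⁻¹ ∈ U₁ := by
    rintro _ ⟨x, hx, y, hy, rfl⟩ g
    exact ⟨_, hUconj x hx g, _, hUconj y hy g, by simp only [commutatorElement_def]; group⟩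
  have n1 : (Subgroup.closure U₁).Normal := normal_closure_of_conj hU₁conj
  have h1 : ⁅Subgroup.closure U, Subgroup.closure U⁆ ≤ Subgroup.closure U₁ :=
    commutator_closure_le fun x hx y hy => Subgroup.subset_closure ⟨x, hx, y, hy, rfl⟩
  have h2 : ⁅Subgroup.closure U₁, Subgroup.closure U₁⁆ ≤ ⊥ := by
    refine commutator_closure_le ?_
    rintro _ ⟨x, hx, y, hy, rfl⟩ _ ⟨z, hz, t, ht, rfl⟩
    exact Subgroup.mem_bot.2 (hsep _ (hsmall x y z t hx hy hz ht))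
  refine ⟨Subgroup.closure U, ?_, fun x hx y hy z hz t ht => ?_⟩
  · obtain ⟨s, hs⟩ := hℓ.tb ε hε
    have : Set.Finite (Set.univ : Set (G ⧸ Subgroup.closure U)) := by
      refine (s.finite_toSet.image (QuotientGroup.mk : G → G ⧸ Subgroup.closure U)).subset ?_
      intro q _
      obtain ⟨g, rfl⟩ := QuotientGroup.mk_surjective q
      obtain ⟨h, hh, hg⟩ := hs g
      exact ⟨h, hh, QuotientGroup.eq.2 (Subgroup.subset_closure hg)⟩
    have : Finite (G ⧸ Subgroup.closure U) := Set.finite_univ_iff.1 this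
    exact Subgroup.finiteIndex_of_finite_quotient
  · exact Subgroup.mem_bot.1 (h2 (Subgroup.commutator_mem_commutator
      (h1 (Subgroup.commutator_mem_commutator hx hy)) (h1 (Subgroup.commutator_mem_commutator hz ht))))

end Pool.Agent.AQB
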