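import Pool.Agent.AQB.BIa

/-!
# AQB-BIb: `W` acts trivially on vectors with totally bounded orbits

PROOF. `d g h := ⨆ k, ‖ρ (g * k) ξ - ρ (h * k) ξ‖` (bounded by `2 ‖ξ‖`). It is a bi-invariant pseudometric: left
invariance since `ρ` is isometric, right invariance by reindexing `k`. Totally bounded: given `ε`, take
`k_1, .., k_s` such that every `ρ k ξ` is within `ε/8` of some `ρ k_i ξ` (total boundedness of the orbit); `g` is
determined up to `ε` by the pattern `i ↦ j`, `ρ (g k_i) ξ` near `ρ k_j ξ`.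
`N := {g | d g 1 = 0}` is a normal subgroup. If `N = ⊥` then `bi_lemma` contradicts `S.hV`. Otherwise `W ≤ N` by
`S.hW`, and `‖ρ (w * 1) ξ - ρ (1 * 1) ξ‖ ≤ d w 1 = 0`.  (proof: helper41)
-/

set_option autoImplicit false

namespace Pool.Agent.AQB

section Aux

variable {G : Type*} [Group G] {H : Type*} [NormedAddCommGroup H] [InnerProductSpace ℝ H]
  (ρ : G →* (H ≃ₗᵢ[ℝ] H)) (ξ : H)

private noncomputable def dd (g h : G) : ℝ := ⨆ k : G, ‖ρ (g * k) ξ - ρ (h * k) ξ‖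

private lemma dd_bdd (g h : G) :
    BddAbove (Set.range fun k : G => ‖ρ (g * k) ξ - ρ (h * k) ξ‖) := by
  refine ⟨‖ξ‖ + ‖ξ‖, ?_⟩
  rintro _ ⟨k, rfl⟩
  refine (norm_sub_le _ _).trans ?_
  rw [LinearIsometryEquiv.norm_map, LinearIsometryEquiv.norm_map]

private lemma le_dd (g h k : G) : ‖ρ (g * k) ξ - ρ (h * k) ξ‖ ≤ dd ρ ξ g h :=
  le_ciSup (dd_bdd ρ ξ g h) k

private lemma dd_le (g h : G) (c : ℝ) (hc : ∀ k, ‖ρ (g * k) ξ - ρ (h * k) ξ‖ ≤ c) :
    dd ρ ξ g h ≤ c := ciSup_le hc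

private lemma dd_nonneg (g h : G) : 0 ≤ dd ρ ξ g h := (norm_nonneg _).trans (le_dd ρ ξ g h 1)

private lemma norm_rho_sub (g : G) (x y : H) : ‖ρ g x - ρ g y‖ = ‖x - y‖ := by
  rw [← map_sub, LinearIsometryEquiv.norm_map]

private lemma rho_mul (g h : G) : ρ (g * h) ξ = ρ g (ρ h ξ) := by
  rw [map_mul]; rfl

private lemma dd_self (g : G) : dd ρ ξ g g = 0 := by
  apply le_antisymm _ (dd_nonneg ρ ξ g g)
  apply dd_le
  intro k
  rw [sub_self, norm_zero]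

private lemma dd_symm (g h : G) : dd ρ ξ g h = dd ρ ξ h g := by
  unfold dd
  congr 1
  funext k
  exact norm_sub_rev _ _

private lemma dd_tri (x y z : G) : dd ρ ξ x z ≤ dd ρ ξ x y + dd ρ ξ y z := by
  apply dd_le
  intro k
  refine (norm_sub_le_norm_sub_add_norm_sub _ (ρ (y * k) ξ) _).trans ?_
  exact add_le_add (le_dd ρ ξ x y k) (le_dd ρ ξ y z k)

private lemma dd_left (g x y : G) : dd ρ ξ (g * x) (g * y) = dd ρ ξ x y := by
  unfold dd
  congr 1
  funext k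
  rw [mul_assoc, mul_assoc, rho_mul ρ ξ g, rho_mul ρ ξ g, norm_rho_sub]

private lemma dd_right_le (g x y : G) : dd ρ ξ (x * g) (y * g) ≤ dd ρ ξ x y := by
  apply dd_le
  intro k
  rw [mul_assoc, mul_assoc]
  exact le_dd ρ ξ x y (g * k)

private lemma dd_right (g x y : G) : dd ρ ξ (x * g) (y * g) = dd ρ ξ x y := by
  apply le_antisymm (dd_right_le ρ ξ g x y)
  have := dd_right_le ρ ξ g⁻¹ (x * g) (y * g)
  simpa using this

private lemma dd_tb (h : TotallyBounded (Set.range fun g => ρ g ξ)) (ε : ℝ) (hε : 0 < ε) :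
    ∃ F : Finset G, ∀ g, ∃ f ∈ F, dd ρ ξ g f < ε := by
  classical
  -- a finite net of the orbit
  have hnet : ∃ T : Finset G, ∀ g, ∃ s ∈ T, ‖ρ g ξ - ρ s ξ‖ < ε / 8 := by
    obtain ⟨t, htsub, htfin, ht⟩ := Metric.finite_approx_of_totallyBounded h (ε / 8) (by positivity)
    have hr : ∀ u ∈ t, ∃ s : G, ρ s ξ = u := fun u hu => htsub hu
    choose! r hr' using hr
    refine ⟨htfin.toFinset.image r, fun g => ?_⟩
    have hg := ht ⟨g, rfl⟩
    simp only [Set.mem_iUnion, Metric.mem_ball] at hg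
    obtain ⟨u, hu, hgu⟩ := hg
    refine ⟨r u, Finset.mem_image_of_mem _ (htfin.mem_toFinset.mpr hu), ?_⟩
    rw [hr' u hu, ← dist_eq_norm]
    exact hgu
  obtain ⟨T, hT⟩ := hnet
  choose c hcT hc using hT
  let pat : G → (T → T) := fun g i => ⟨c (g * i), hcT _⟩
  have hrep : ∀ p : (T → T), ∃ s : G, (∃ g, pat g = p) → pat s = p := by
    intro p
    by_cases h : ∃ g, pat g = p
    · obtain ⟨g, hg⟩ := h
      exact ⟨g, fun _ => hg⟩
    · exact ⟨1, fun h' => absurd h' h⟩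
  choose r hr using hrep
  refine ⟨Finset.univ.image r, fun g =>
    ⟨r (pat g), Finset.mem_image_of_mem _ (Finset.mem_univ _), ?_⟩⟩
  have hpat : pat (r (pat g)) = pat g := hr _ ⟨g, rfl⟩
  set s := r (pat g) with hsdef
  have hle : dd ρ ξ g s ≤ ε / 2 := by
    apply dd_le
    intro m
    have hi := hc m
    set i := c m with hidef
    have hiT : i ∈ T := hcT m
    have hj : c (g * i) = c (s * i) := by
      have := congrFun hpat ⟨i, hiT⟩
      simp only [pat] at this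
      exact (Subtype.ext_iff.mp this).symm
    have h1 : ‖ρ (g * m) ξ - ρ (g * i) ξ‖ < ε / 8 := by
      rw [rho_mul ρ ξ g m, rho_mul ρ ξ g i, norm_rho_sub]; exact hi
    have h2 : ‖ρ (g * i) ξ - ρ (c (g * i)) ξ‖ < ε / 8 := hc _
    have h3 : ‖ρ (c (g * i)) ξ - ρ (s * i) ξ‖ < ε / 8 := by
      rw [hj, norm_sub_rev]; exact hc _
    have h4 : ‖ρ (s * i) ξ - ρ (s * m) ξ‖ < ε / 8 := by
      rw [rho_mul ρ ξ s i, rho_mul ρ ξ s m, norm_rho_sub, norm_sub_rev]; exact hi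
    have a1 := norm_sub_le_norm_sub_add_norm_sub (ρ (g * m) ξ) (ρ (g * i) ξ) (ρ (s * m) ξ)
    have a2 := norm_sub_le_norm_sub_add_norm_sub (ρ (g * i) ξ) (ρ (c (g * i)) ξ) (ρ (s * m) ξ)
    have a3 := norm_sub_le_norm_sub_add_norm_sub (ρ (c (g * i)) ξ) (ρ (s * i) ξ) (ρ (s * m) ξ)
    linarith
  linarith

/-- the kernel of `dd` -/
private noncomputable def kerdd : Subgroup G where
  carrier := {g | dd ρ ξ g 1 = 0}
  one_mem' := dd_self ρ ξ 1
  mul_mem' := by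
    intro a b ha hb
    apply le_antisymm _ (dd_nonneg ρ ξ _ _)
    refine (dd_tri ρ ξ (a * b) a 1).trans ?_
    have h1 : dd ρ ξ (a * b) a = 0 := by
      have := dd_left ρ ξ a b 1
      rw [mul_one] at this
      rw [this]; exact hb
    have h2 : dd ρ ξ a 1 = 0 := ha
    rw [h1, h2, add_zero]
  inv_mem' := by
    intro a ha
    have h1 := dd_left ρ ξ a a⁻¹ 1
    rw [mul_inv_cancel, mul_one, dd_symm] at h1
    have h2 : dd ρ ξ a 1 = 0 := ha
    show dd ρ ξ a⁻¹ 1 = 0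
    rw [← h1, h2]

private lemma kerdd_normal : (kerdd ρ ξ).Normal := by
  refine ⟨fun n hn g => ?_⟩
  have hn' : dd ρ ξ n 1 = 0 := hn
  show dd ρ ξ (g * n * g⁻¹) 1 = 0
  have h1 := dd_right ρ ξ g⁻¹ (g * n) g
  rw [mul_inv_cancel] at h1
  rw [h1]
  have h2 := dd_left ρ ξ g n 1
  rw [mul_one] at h2
  rw [h2, hn']

end Aux

theorem fixed_of_totallyBounded {G : Type*} [Group G] (S : Star G) {H : Type*}
    [NormedAddCommGroup H] [InnerProductSpace ℝ H] (ρ : G →* (H ≃ₗᵢ[ℝ] H)) (ξ : H)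
    (h : TotallyBounded (Set.range fun g => ρ g ξ)) : ∀ w ∈ S.W, ρ w ξ = ξ := by
  intro w hw
  by_cases hN : kerdd ρ ξ = ⊥
  · exfalso
    obtain ⟨L, hL, hM⟩ := bi_lemma S.toDC (dd ρ ξ) (dd_self ρ ξ) (dd_symm ρ ξ) (dd_tri ρ ξ)
      (dd_left ρ ξ) (dd_right ρ ξ) (fun ε hε => dd_tb ρ ξ h ε hε) (fun x hx => by
        have h1 : x ∈ kerdd ρ ξ := hx
        rw [hN, Subgroup.mem_bot] at h1
        exact h1)
    exact S.hV L hL hM
  · have h1 : w ∈ kerdd ρ ξ := S.hW _ (kerdd_normal ρ ξ) hN hw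
    have h2 : dd ρ ξ w 1 = 0 := h1
    have h3 := le_dd ρ ξ w 1 1
    rw [h2, mul_one, mul_one, map_one] at h3
    have h4 : ρ w ξ - (1 : H ≃ₗᵢ[ℝ] H) ξ = 0 := norm_le_zero_iff.mp h3
    exact sub_eq_zero.mp h4

end Pool.Agent.AQB
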