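import Pool.Agent.AQB.Defs
import Pool.Agent.AQ.CommConj

/-!
# AQB-PB: infinitely many commuting conjugates

PROOF: see `Pool/Agent/AQ/CommConj.lean`.
-/

set_option autoImplicit false

open scoped commutatorElement

namespace Pool.Agent.AQB

theorem cbm_of_conj {G : Type*} [Group G] (S : DC G) (H : Subgroup G) (g : ℕ → G)
    (h : ∀ a b, a ≠ b → ∀ x ∈ H, ∀ y ∈ H, Commute (g a * x * (g a)⁻¹) (g b * y * (g b)⁻¹)) :
    CbM H := by
  classical
  intro x hx y hy z hz t ht v hv
  choose a ha t' ht' c hc hT using S.hT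
  have key := Pool.Agent.AQ.commConj S.hA S.hC
    (c := fun g => (Finite.equivFin S.T) ⟨t' g, ht' g⟩)
    (fun g g' hgg => by
      have h1 : t' g = t' g' := by simpa using hgg
      refine ⟨a g * (a g')⁻¹, mul_mem (ha g) (inv_mem (ha g')), (c g')⁻¹ * c g,
        mul_mem (inv_mem (hc g')) (hc g), ?_⟩
      have h2 := hT g
      have h3 : t' g = (a g')⁻¹ * g' * (c g')⁻¹ := by
        rw [h1]
        have := hT g'
        calc t' g' = (a g')⁻¹ * (a g' * t' g' * c g') * (c g')⁻¹ := by group
          _ = _ := by rw [← this]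
      rw [h3] at h2
      calc g = a g * ((a g')⁻¹ * g' * (c g')⁻¹) * c g := h2
        _ = _ := by group) H
    (fun N => ⟨fun i => g i, fun i j hij => h i j (fun h => hij (Fin.ext h))⟩)
    ![x, y, z, t] (fun i => by fin_cases i <;> simp [hx, hy, hz, ht]) v hv
  simpa [commutatorElement_eq_one_iff_commute] using key

end Pool.Agent.AQB
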