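import Mathlib

/-!
# Minimal left ideals of ultrafilters and the idempotent projection of an isometric action
-/

set_option autoImplicit false

namespace Pool.Agent.AQB

open Filter Topology
open scoped RealInnerProductSpace

attribute [local instance] Ultrafilter.mul Ultrafilter.semigroup

universe u v

/-- There is a closed left ideal `L` of the semigroup of ultrafilters on `G` which is generated by
each of its elements. -/
theorem exists_min_left_ideal (G : Type u) [Group G] :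
    ∃ L : Set (Ultrafilter G), IsClosed L ∧ L.Nonempty ∧ (∀ U V, V ∈ L → U * V ∈ L) ∧
      ∀ V ∈ L, ∀ W ∈ L, ∃ U : Ultrafilter G, U * V = W := by
  let S : Set (Set (Ultrafilter G)) :=
    { N | IsClosed N ∧ N.Nonempty ∧ ∀ U V, V ∈ N → U * V ∈ N }
  rsuffices ⟨N, hN⟩ : ∃ N', Minimal (· ∈ S) N'
  · obtain ⟨hc, hn, hm⟩ := hN.prop
    refine ⟨N, hc, hn, hm, fun V hV W hW => ?_⟩
    have h : (· * V) '' (Set.univ : Set (Ultrafilter G)) = N := by
      apply hN.eq_of_subset
      · refine ⟨(Ultrafilter.continuous_mul_left V).isClosedMap _ isClosed_univ, ?_, ?_⟩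
        · exact ⟨V * V, V, trivial, rfl⟩
        · rintro U _ ⟨T, -, rfl⟩
          exact ⟨U * T, trivial, mul_assoc _ _ _⟩
      · rintro _ ⟨T, -, rfl⟩
        exact hm _ _ hV
    rw [← h] at hW
    obtain ⟨U, -, hU⟩ := hW
    exact ⟨U, hU⟩
  refine zorn_superset _ fun c hcs hc => ?_
  refine ⟨⋂₀ c, ⟨isClosed_sInter fun t ht => (hcs ht).1, ?_, fun U V hV => ?_⟩, fun s hs =>
      Set.sInter_subset_of_mem hs⟩
  · obtain rfl | hcnemp := c.eq_empty_or_nonempty
    · rw [Set.sInter_empty]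
      exact ⟨pure 1, trivial⟩
    convert!
      @IsCompact.nonempty_iInter_of_directed_nonempty_isCompact_isClosed _ _ _ hcnemp.coe_sort
        ((↑) : c → Set (Ultrafilter G)) ?_ ?_ ?_ ?_
    · exact Set.sInter_eq_iInter
    · refine DirectedOn.directed_val (IsChain.directedOn hc.symm)
    exacts [fun i => (hcs i.prop).2.1, fun i => (hcs i.prop).1.isCompact, fun i => (hcs i.prop).1]
  · rw [Set.mem_sInter]
    exact fun t ht => (hcs ht).2.2 _ _ (Set.mem_sInter.mp hV t ht)

/-- Bounded real functions converge along ultrafilters. -/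
theorem exists_ulim {X : Type u} (U : Ultrafilter X) (f : X → ℝ) (c : ℝ) (h : ∀ x, |f x| ≤ c) :
    ∃ l : ℝ, |l| ≤ c ∧ Tendsto f U (𝓝 l) := by
  obtain ⟨l, hl, h2⟩ := (isCompact_Icc (a := -c) (b := c)).ultrafilter_le_nhds (U.map f) (by
    rw [le_principal_iff]
    refine Filter.mem_map.2 (Filter.univ_mem' fun x => ?_)
    exact abs_le.1 (h x))
  exact ⟨l, abs_le.2 hl, h2⟩

section

variable {G : Type u} [Group G] {H : Type v} [NormedAddCommGroup H] [InnerProductSpace ℝ H]
  [CompleteSpace H] (ρ : G →* (H ≃ₗᵢ[ℝ] H))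

omit [CompleteSpace H] in
theorem rho_mul (g h : G) (u : H) : ρ (g * h) u = ρ g (ρ h u) := by
  rw [map_mul]
  rfl

omit [CompleteSpace H] in
theorem abs_inner_rho (g : G) (u w : H) : |⟪ρ g u, w⟫| ≤ ‖u‖ * ‖w‖ := by
  have := abs_real_inner_le_norm (ρ g u) w
  rwa [LinearIsometryEquiv.norm_map] at this

omit [CompleteSpace H] in
theorem inner_rho_inv (g : G) (u w : H) : ⟪ρ g u, w⟫ = ⟪u, ρ g⁻¹ w⟫ := by
  have h := LinearIsometryEquiv.inner_map_map (ρ g) u (ρ g⁻¹ w)
  have h2 : ρ g (ρ g⁻¹ w) = w := by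
    rw [← rho_mul, mul_inv_cancel, map_one]
    rfl
  rw [h2] at h
  exact h

/-- The weak limit of the operators `ρ g` along an ultrafilter. -/
theorem exists_op (U : Ultrafilter G) :
    ∃ T : H →L[ℝ] H, ∀ u w, Tendsto (fun g => ⟪ρ g u, w⟫) U (𝓝 ⟪T u, w⟫) := by
  choose b hb hlim using fun (u w : H) => exists_ulim U (fun g => ⟪ρ g u, w⟫) (‖u‖ * ‖w‖)
    (fun g => abs_inner_rho ρ g u w)
  let B : H →ₗ[ℝ] H →ₗ[ℝ] ℝ := LinearMap.mk₂ ℝ b
    (fun u u' w => tendsto_nhds_unique (hlim _ _) (by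
      simpa only [map_add, inner_add_left] using (hlim u w).add (hlim u' w)))
    (fun c u w => tendsto_nhds_unique (hlim _ _) (by
      simpa only [map_smul, real_inner_smul_left, smul_eq_mul] using (hlim u w).const_mul c))
    (fun u w w' => tendsto_nhds_unique (hlim _ _) (by
      simpa only [inner_add_right] using (hlim u w).add (hlim u w')))
    (fun c u w => tendsto_nhds_unique (hlim _ _) (by
      simpa only [real_inner_smul_right, smul_eq_mul] using (hlim u w).const_mul c))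
  let B' : H →L[ℝ] H →L[ℝ] ℝ := B.mkContinuous₂ 1 (fun u w => by
    rw [one_mul, Real.norm_eq_abs]
    exact hb u w)
  refine ⟨InnerProductSpace.continuousLinearMapOfBilin (𝕜 := ℝ) B', fun u w => ?_⟩
  have : ⟪InnerProductSpace.continuousLinearMapOfBilin (𝕜 := ℝ) B' u, w⟫ = b u w := by
    rw [InnerProductSpace.continuousLinearMapOfBilin_apply]
    rfl
  rw [this]
  exact hlim u w

/-- The projection of an isometric action given by an idempotent of a minimal left ideal. -/
theorem idem : ∃ (P : H →L[ℝ] H) (ε : Ultrafilter G),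
    (∀ u w, Tendsto (fun g => ⟪ρ g u, w⟫) ε (𝓝 ⟪P u, w⟫)) ∧ (∀ u, P (P u) = P u) ∧
    (∀ u w, ⟪P u, w⟫ = ⟪u, P w⟫) ∧
    (∀ u, TotallyBounded (Set.range (fun g => ρ g (P u)))) := by
  choose T hT using fun U : Ultrafilter G => exists_op ρ U
  -- norms
  have hnorm : ∀ U u, ‖T U u‖ ≤ ‖u‖ := by
    intro U u
    by_cases h0 : T U u = 0
    · rw [h0, norm_zero]; exact norm_nonneg _
    have h1 : ⟪T U u, T U u⟫ ≤ ‖u‖ * ‖T U u‖ :=
      le_of_tendsto (hT U u (T U u)) (Filter.univ_mem' fun g =>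
        (le_abs_self _).trans (abs_inner_rho ρ g u _))
    rw [real_inner_self_eq_norm_mul_norm] at h1
    exact le_of_mul_le_mul_right h1 (norm_pos_iff.2 h0)
  -- multiplicativity
  have hmul : ∀ U V u, T (U * V) u = T U (T V u) := by
    intro U V u
    refine ext_inner_right ℝ fun w => ?_
    have h1 := hT (U * V) u w
    have h2 := hT U (T V u) w
    refine (eq_of_forall_dist_le fun e he => ?_).symm
    have h3 : ∀ᶠ m in (↑(U * V) : Filter G), dist (⟪ρ m u, w⟫) (⟪T (U * V) u, w⟫) ≤ e :=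
      (h1.eventually (Metric.closedBall_mem_nhds _ he))
    rw [Ultrafilter.eventually_mul] at h3
    have h4 : ∀ᶠ g in (U : Filter G), dist (⟪ρ g (T V u), w⟫) (⟪T (U * V) u, w⟫) ≤ e := by
      filter_upwards [h3] with g hg
      have h5 : Tendsto (fun h => ⟪ρ (g * h) u, w⟫) V (𝓝 ⟪ρ g (T V u), w⟫) := by
        have h6 := hT V u (ρ g⁻¹ w)
        rw [← inner_rho_inv ρ g (T V u) w] at h6
        refine h6.congr fun h => ?_
        rw [← inner_rho_inv, ← rho_mul]
      exact le_of_tendsto (h5.dist tendsto_const_nhds) hg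
    exact le_of_tendsto (h2.dist tendsto_const_nhds) h4
  obtain ⟨L, hLc, hLn, hLi, hLm⟩ := exists_min_left_ideal G
  obtain ⟨ε, hεL, hεε⟩ := exists_idempotent_in_compact_subsemigroup
    (Ultrafilter.continuous_mul_left (M := G)) L hLn hLc.isCompact (fun x _ y hy => hLi x y hy)
  have hPP : ∀ u, T ε (T ε u) = T ε u := fun u => by rw [← hmul, hεε]
  -- orthogonality of range and kernel
  have horth : ∀ u w, ⟪T ε u, w - T ε w⟫ = 0 := by
    intro u w
    set x := T ε u with hx
    set y := w - T ε w with hy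
    have hPx : T ε x = x := hPP u
    have hPy : T ε y = 0 := by rw [hy, map_sub, hPP, sub_self]
    have hineq : ∀ t : ℝ, 0 ≤ ‖y‖ ^ 2 * (t * t) + (2 * ⟪x, y⟫) * t + 0 := by
      intro t
      have h1 : ‖x‖ ≤ ‖x + t • y‖ := by
        have := hnorm ε (x + t • y)
        rwa [map_add, map_smul, hPx, hPy, smul_zero, add_zero] at this
      have h2 : ‖x‖ ^ 2 ≤ ‖x + t • y‖ ^ 2 := by gcongr
      rw [norm_add_sq_real, real_inner_smul_right, norm_smul, mul_pow, Real.norm_eq_abs,
        sq_abs] at h2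
      nlinarith
    have := discrim_le_zero hineq
    rw [discrim] at this
    have h3 : (2 * ⟪x, y⟫) ^ 2 ≤ 0 := by linarith
    have h4 : (2 * ⟪x, y⟫) = 0 := by nlinarith [sq_nonneg (2 * ⟪x, y⟫)]
    linarith
  refine ⟨T ε, ε, hT ε, hPP, fun u w => ?_, fun u => ?_⟩
  · have h1 : ⟪T ε u, w⟫ = ⟪T ε u, T ε w⟫ := by
      have := horth u w
      rw [inner_sub_right] at this
      linarith
    have h2 : ⟪T ε w, u⟫ = ⟪T ε w, T ε u⟫ := by
      have := horth w u
      rw [inner_sub_right] at this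
      linarith
    rw [h1, real_inner_comm, ← h2, real_inner_comm]
  · set ξ := T ε u with hξ
    have hiso : ∀ s, ‖T s ξ‖ = ‖ξ‖ := by
      intro s
      obtain ⟨s', hs'⟩ := hLm (s * ε) (hLi _ _ hεL) ε hεL
      refine le_antisymm (hnorm _ _) ?_
      have : T s' (T s ξ) = ξ := by
        rw [hξ, ← hmul, ← hmul, mul_assoc, hs']
      calc ‖ξ‖ = ‖T s' (T s ξ)‖ := by rw [this]
        _ ≤ _ := hnorm _ _
    have hconv : ∀ s : Ultrafilter G, Tendsto (fun g => ρ g ξ) s (𝓝 (T s ξ)) := by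
      intro s
      rw [tendsto_iff_norm_sub_tendsto_zero]
      have h1 : Tendsto (fun g => ‖ρ g ξ - T s ξ‖ ^ 2) s (𝓝 0) := by
        have h2 : ∀ g, ‖ρ g ξ - T s ξ‖ ^ 2 = 2 * ‖ξ‖ ^ 2 - 2 * ⟪ρ g ξ, T s ξ⟫ := by
          intro g
          rw [norm_sub_sq_real, LinearIsometryEquiv.norm_map, hiso]
          ring
        simp_rw [h2]
        have h3 := ((hT s ξ (T s ξ)).const_mul 2).const_sub (2 * ‖ξ‖ ^ 2)
        rwa [real_inner_self_eq_norm_sq, hiso, sub_self] at h3
      have h4 := h1.sqrt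
      rw [Real.sqrt_zero] at h4
      refine h4.congr fun g => ?_
      rw [Real.sqrt_sq (norm_nonneg _)]
    rw [totallyBounded_iff_ultrafilter]
    intro f hf
    have hne : (Filter.comap (fun g => ρ g ξ) (f : Filter H)).NeBot := by
      rw [Filter.comap_neBot_iff]
      intro t ht
      have h5 : t ∩ Set.range (fun g => ρ g ξ) ∈ (f : Filter H) :=
        Filter.inter_mem ht (le_principal_iff.1 hf)
      obtain ⟨_, hy, g, rfl⟩ := (f.neBot.nonempty_of_mem h5)
      exact ⟨g, hy⟩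
    let s : Ultrafilter G := Ultrafilter.of (Filter.comap (fun g => ρ g ξ) (f : Filter H))
    have hs : s.map (fun g => ρ g ξ) = f := by
      apply Ultrafilter.eq_of_le
      rw [Ultrafilter.coe_map]
      exact (Filter.map_mono (Ultrafilter.of_le _)).trans Filter.map_comap_le
    have h6 : (f : Filter H) ≤ 𝓝 (T s ξ) := by
      rw [← hs, Ultrafilter.coe_map]
      exact hconv s
    exact cauchy_nhds.mono h6

end

theorem exists_proj {G : Type*} [Group G] {H : Type*} [NormedAddCommGroup H]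
    [InnerProductSpace ℝ H] [CompleteSpace H] (ρ : G →* (H ≃ₗᵢ[ℝ] H)) :
    ∃ (ε : Ultrafilter G) (P : H →L[ℝ] H),
      (∀ ξ η : H, Tendsto (fun g => inner ℝ η (ρ g ξ)) (ε : Filter G) (𝓝 (inner ℝ η (P ξ)))) ∧
      (∀ ξ, P (P ξ) = P ξ) ∧
      (∀ ξ η : H, inner ℝ (P ξ) η = inner ℝ ξ (P η)) ∧
      ∀ ξ : H, TotallyBounded (Set.range fun g => ρ g (P ξ)) := by
  obtain ⟨P, ε, h1, h2, h3, h4⟩ := idem ρ
  refine ⟨ε, P, fun ξ η => ?_, h2, h3, h4⟩
  have := h1 ξ η
  simp only [real_inner_comm η] at this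
  exact this

end Pool.Agent.AQB
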