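import Pool.Agent.AQB.Hilb
import Pool.Agent.AQB.Idem
import Pool.Agent.AQB.BIb

/-!
# AQB-Form: the limit form (assembly of Hilb, Idem, BIb)

PROOF. `B E F := ⟪v E, P (v F)⟫`. The first statement is `exists_proj` for `ξ = v F`, `η = v E`, together with
`⟪v E, ρ x (v F)⟫ = mu (E ∩ tr x F)`. Second: `⟪v E, P (v E)⟫ = ‖P (v E)‖²` (symmetric idempotent),
`‖P (v E)‖² ≥ ⟪P (v E), v univ⟫²` (Cauchy-Schwarz, `‖v univ‖ = 1`) and `⟪P (v E), v univ⟫ = ⟪v E, P (v univ)⟫ = mu E`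
(`tr x univ = univ`, so `⟪v E, ρ x (v univ)⟫ = mu E` for all `x`). Third: `ρ w (P ξ) = P ξ` by `fixed_of_totallyBounded`, so
`⟪η, P (ρ w ξ)⟫ = ⟪P η, ρ w ξ⟫ = ⟪ρ w⁻¹ (P η), ξ⟫ = ⟪P η, ξ⟫ = ⟪η, P ξ⟫`.
-/

set_option autoImplicit false

open Filter Topology

universe u

namespace Pool.Agent.AQB

theorem exists_form {G : Type u} [Group G] (S : Star G) (M : Mean G) :
    ∃ (ε : Ultrafilter G) (B : Set G → Set G → ℝ),
      (∀ E F : Set G, Tendsto (fun x => M.mu (E ∩ tr x F)) (ε : Filter G) (𝓝 (B E F))) ∧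
      (∀ E : Set G, M.mu E ^ 2 ≤ B E E) ∧
      (∀ w ∈ S.W, ∀ E F : Set G, B E (tr w F) = B E F) := by
  obtain ⟨H, i1, i2, i3, ρ, v, hv, hρ⟩ := exists_hilbert M
  obtain ⟨ε, P, hlim, hid, hsym, htb⟩ := exists_proj ρ
  have hone : inner ℝ (v Set.univ) (v Set.univ) = 1 := by
    rw [hv, Set.inter_self, mu_univ]
  refine ⟨ε, fun E F => inner ℝ (v E) (P (v F)), fun E F => ?_, fun E => ?_, fun w hw E F => ?_⟩
  · refine (hlim (v F) (v E)).congr fun x => ?_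
    rw [hρ, hv]
  · have h1 : inner ℝ (v E) (P (v E)) = inner ℝ (P (v E)) (P (v E)) := by
      rw [hsym, hid]
    have h2 : inner ℝ (v E) (P (v Set.univ)) = M.mu E := by
      have h3 := hlim (v Set.univ) (v E)
      have h4 : (fun g => inner ℝ (v E) (ρ g (v Set.univ))) = fun _ => M.mu E := by
        funext g
        rw [hρ, hv]
        congr 1
        ext x
        simp [tr]
      rw [h4] at h3
      exact tendsto_nhds_unique h3 tendsto_const_nhds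
    have h5 : inner ℝ (P (v E)) (v Set.univ) = M.mu E := by rw [hsym, h2]
    have h6 := real_inner_mul_inner_self_le (P (v E)) (v Set.univ)
    rw [h5, hone, mul_one] at h6
    rw [pow_two]
    show _ ≤ inner ℝ (v E) (P (v E))
    rw [h1]
    exact h6
  · have h1 : ρ w⁻¹ (P (v E)) = P (v E) :=
      fixed_of_totallyBounded S ρ _ (htb _) _ (S.W.inv_mem hw)
    show inner ℝ (v E) (P (v (tr w F))) = inner ℝ (v E) (P (v F))
    rw [← hsym, ← hsym, ← hρ]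
    have h2 : inner ℝ (P (v E)) (ρ w (v F)) = inner ℝ (ρ w⁻¹ (P (v E))) (ρ w⁻¹ (ρ w (v F))) :=
      ((ρ w⁻¹).inner_map_map _ _).symm
    rw [h2, h1]
    congr 1
    have h3 : ρ w⁻¹ (ρ w (v F)) = (ρ w⁻¹ * ρ w) (v F) := rfl
    rw [h3, ← map_mul, inv_mul_cancel, map_one]
    rfl

end Pool.Agent.AQB
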