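import Pool.Agent.AQB.MeanB
import Pool.Agent.AQB.Form

/-!
# AQB-Rec: step B4 of the blueprint

PROOF. Let `ε`, `B` be as in `exists_form`, `T`, `e` as in `TData`.
(M) If `E ⊆ tr g T` and `0 < mu E` then for all `h`, for `ε`-almost all `x`: `0 < mu (E ∩ tr (x * h) T)`.
  `tr x (tr h T) = tr (x * h) T`, so `mu (E ∩ tr (x * h) T)` tends to `B E (tr h T)`. By `wt` and the third property
  `B E (tr h T) = B E T = B E (tr g T)`; `mu (E ∩ tr x E) ≤ mu (E ∩ tr x (tr g T))` gives `B E E ≤ B E (tr g T)`; so the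
  limit is `≥ B E E ≥ (mu E)² > 0`.
Given `h : Fin n → G` construct `g : ℕ → G` recursively with `0 < mu (tr (g a * h i) T ∩ tr (g b * h k) T)` for `a < b`:
  (M) for the finitely many sets `E = tr (g a * h i) T` (`mu E = mu T > 0`) and the finitely many `h k`; the ultrafilter
  gives a common `x = g b` (Mathlib: `Filter.eventually_all`, `Ultrafilter.nonempty_of_mem` / `Eventually.exists`). For the
  recursion `exists_seq_of_forall_finset_exists'` or a strong recursion on `ℕ` may be used
  (`exists_seq_of_forall_finset_exists`: for every finite set of earlier elements there is a next one).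
For `a < b`: (M) for the sets `E = tr (g a * h i) T ∩ tr (g b * h k) T` gives `q` with
  `0 < mu (tr (g a * h i) T ∩ tr (g b * h k) T ∩ tr q T)` for all `i`, `k`; in particular non-empty. By `t1`
  `D e (g a * h i) q` commutes with `D e (g b * h k) q` for all `i`, `k`. As
  `g a * D e (h i) (h j) * (g a)⁻¹ = D e (g a * h i) (g a * h j) = D e (g a * h i) q * (D e (g a * h j) q)⁻¹`, the claim
  follows for `a < b`, and by symmetry for `a ≠ b`.
-/

set_option autoImplicit false

open Filter Topology

universe u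

namespace Pool.Agent.AQB

theorem tr_tr_rec {G : Type u} [Group G] (x h : G) (T : Set G) : tr x (tr h T) = tr (x * h) T := by
  ext y
  simp [tr, mul_assoc]

theorem tr_mono_rec {G : Type u} [Group G] (x : G) {E F : Set G} (h : E ⊆ F) : tr x E ⊆ tr x F :=
  fun _ hy => h hy

/-- Property (M). -/
theorem eventually_pos_rec {G : Type u} [Group G] (S : Star G) (M : Mean G) (X : TData M S.W)
    (ε : Ultrafilter G) (B : Set G → Set G → ℝ)
    (h1 : ∀ E F : Set G, Tendsto (fun x => M.mu (E ∩ tr x F)) (ε : Filter G) (𝓝 (B E F)))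
    (h2 : ∀ E : Set G, M.mu E ^ 2 ≤ B E E)
    (h3 : ∀ w ∈ S.W, ∀ E F : Set G, B E (tr w F) = B E F)
    (g : G) (E : Set G) (hE : E ⊆ tr g X.T) (hpos : 0 < M.mu E) (h : G) :
    ∀ᶠ x in (ε : Filter G), 0 < M.mu (E ∩ tr (x * h) X.T) := by
  have key : ∀ k : G, B E (tr k X.T) = B E X.T := by
    intro k
    obtain ⟨w, hw, hk⟩ := X.wt k
    rw [hk, h3 w hw]
  have hle : B E E ≤ B E (tr g X.T) :=
    le_of_tendsto_of_tendsto' (h1 E E) (h1 E (tr g X.T)) fun x =>
      mu_mono M (Set.inter_subset_inter_right _ (tr_mono_rec x hE))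
  have hlim : 0 < B E (tr h X.T) := by
    rw [key h, ← key g]
    exact lt_of_lt_of_le (pow_pos hpos 2) ((h2 E).trans hle)
  have := (h1 E (tr h X.T)).eventually (lt_mem_nhds hlim)
  refine this.mono fun x hx => ?_
  rw [← tr_tr_rec]
  exact hx

theorem exists_conj {G : Type u} [Group G] (S : Star G) (M : Mean G) (X : TData M S.W) (n : ℕ)
    (h : Fin n → G) :
    ∃ g : ℕ → G, ∀ a b, a ≠ b → ∀ i j k l : Fin n,
      Commute (g a * D X.e (h i) (h j) * (g a)⁻¹) (g b * D X.e (h k) (h l) * (g b)⁻¹) := by
  obtain ⟨ε, B, h1, h2, h3⟩ := exists_form S M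
  have PM := eventually_pos_rec S M X ε B h1 h2 h3
  obtain ⟨g, -, hg⟩ := exists_seq_of_forall_finset_exists (fun _ : G => True)
    (fun x y => ∀ i k : Fin n, 0 < M.mu (tr (x * h i) X.T ∩ tr (y * h k) X.T)) (by
      intro s _
      have hev : ∀ᶠ y in (ε : Filter G), ∀ x ∈ s, ∀ i k : Fin n,
          0 < M.mu (tr (x * h i) X.T ∩ tr (y * h k) X.T) := by
        rw [Filter.eventually_all_finset]
        intro x _
        rw [Filter.eventually_all]
        intro i
        rw [Filter.eventually_all]
        intro k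
        exact PM (x * h i) (tr (x * h i) X.T) subset_rfl (by rw [mu_tr]; exact X.pos) (h k)
      obtain ⟨y, hy⟩ := hev.exists
      exact ⟨y, trivial, hy⟩)
  have hlt : ∀ a b, a < b → ∀ i j k l : Fin n,
      Commute (g a * D X.e (h i) (h j) * (g a)⁻¹) (g b * D X.e (h k) (h l) * (g b)⁻¹) := by
    intro a b hab i j k l
    have hev : ∀ᶠ q in (ε : Filter G), ∀ i k : Fin n,
        0 < M.mu ((tr (g a * h i) X.T ∩ tr (g b * h k) X.T) ∩ tr (q * 1) X.T) := by
      rw [Filter.eventually_all]
      intro i
      rw [Filter.eventually_all]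
      intro k
      exact PM (g a * h i) _ Set.inter_subset_left (hg a b hab i k) 1
    obtain ⟨q, hq⟩ := hev.exists
    have hc : ∀ i k : Fin n,
        Commute (D X.e (g a * h i) (q * 1)) (D X.e (g b * h k) (q * 1)) := by
      intro i k
      apply X.t1
      rw [Set.nonempty_iff_ne_empty]
      intro h0
      have := hq i k
      rw [h0, mu_empty] at this
      exact lt_irrefl _ this
    have hD : ∀ y u v : G, y * D X.e u v * y⁻¹
        = D X.e (y * u) (q * 1) * (D X.e (y * v) (q * 1))⁻¹ := by
      intro y u v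
      simp only [D]
      group
    rw [hD, hD]
    exact (((hc i k).mul_right (hc i l).inv_right).mul_left
      ((hc j k).mul_right (hc j l).inv_right).inv_left)
  refine ⟨g, fun a b hab i j k l => ?_⟩
  rcases lt_or_gt_of_ne hab with hlt' | hgt
  · exact hlt a b hlt' i j k l
  · exact (hlt b a hgt k l i j).symm

end Pool.Agent.AQB
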