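import Pool.Agent.AQB.PickT
import Pool.Agent.AQB.Rec
import Pool.Agent.AQB.PB

/-!
# AQB-Final: PART B of the blueprint

PROOF. Two-sided mean (`exists_two_sided`), `exists_tdata`. `N := Subgroup.closure {x | ∃ h h', x = D e h h'}` is normal
(`g * D e h h' * g⁻¹ = D e (g h) (g h')`). `CbM N`: five elements of `N` lie in the closure `H` of finitely many
`D e (h i) (h j)`, `h : Fin n → G`; by `exists_conj` the conjugates `g a H (g a)⁻¹` commute pairwise (closure induction), so
`cbm_of_conj`. So `N = ⊥` by `S.hS`, `D e h 1 = 1` for all `h`, `e` is central; `closure {e}` is normal and `CbM`, so `⊥`: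
`e = 1`, contradiction.
-/

set_option autoImplicit false

universe u

open scoped commutatorElement

namespace Pool.Agent.AQB

/-- the group generated by all `D e a b` with `a, b ∈ s` -/
private def NS {G : Type u} [Group G] (e : G) (s : Set G) : Subgroup G :=
  Subgroup.closure {x | ∃ a ∈ s, ∃ b ∈ s, x = D e a b}

private theorem NS_mono {G : Type u} [Group G] (e : G) {s s' : Set G} (h : s ⊆ s') :
    NS e s ≤ NS e s' := by
  apply Subgroup.closure_mono
  rintro x ⟨a, ha, b, hb, rfl⟩
  exact ⟨a, h ha, b, h hb, rfl⟩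

private theorem exists_fin {G : Type u} [Group G] (e : G) {x : G} (hx : x ∈ NS e Set.univ) :
    ∃ s : Finset G, x ∈ NS e (s : Set G) := by
  classical
  induction hx using Subgroup.closure_induction with
  | mem x hx =>
    obtain ⟨a, -, b, -, rfl⟩ := hx
    refine ⟨{a, b}, Subgroup.subset_closure ⟨a, by simp, b, by simp, rfl⟩⟩
  | one => exact ⟨∅, Subgroup.one_mem _⟩
  | mul x y _ _ hx hy =>
    obtain ⟨s, hs⟩ := hx
    obtain ⟨s', hs'⟩ := hy
    refine ⟨s ∪ s', Subgroup.mul_mem _ (NS_mono e ?_ hs) (NS_mono e ?_ hs')⟩ <;>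
      · intro z hz
        simp only [Finset.coe_union, Set.mem_union]
        tauto
  | inv x _ hx =>
    obtain ⟨s, hs⟩ := hx
    exact ⟨s, Subgroup.inv_mem _ hs⟩

private theorem NS_normal {G : Type u} [Group G] (e : G) : (NS e (Set.univ : Set G)).Normal := by
  refine ⟨fun n hn g => ?_⟩
  induction hn using Subgroup.closure_induction with
  | mem x hx =>
    obtain ⟨a, -, b, -, rfl⟩ := hx
    refine Subgroup.subset_closure ⟨g * a, Set.mem_univ _, g * b, Set.mem_univ _, ?_⟩
    unfold D
    group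
  | one => simp
  | mul x y _ _ hx hy =>
    have : g * (x * y) * g⁻¹ = (g * x * g⁻¹) * (g * y * g⁻¹) := by group
    rw [this]
    exact Subgroup.mul_mem _ hx hy
  | inv x _ hx =>
    have : g * x⁻¹ * g⁻¹ = (g * x * g⁻¹)⁻¹ := by group
    rw [this]
    exact Subgroup.inv_mem _ hx

/-- commutation of generators passes to the generated groups -/
private theorem commute_closure {G : Type u} [Group G] (e p q : G) (s : Set G)
    (h : ∀ a ∈ s, ∀ b ∈ s, ∀ c ∈ s, ∀ d ∈ s,
      Commute (p * D e a b * p⁻¹) (q * D e c d * q⁻¹)) :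
    ∀ x ∈ NS e s, ∀ y ∈ NS e s, Commute (p * x * p⁻¹) (q * y * q⁻¹) := by
  intro x hx y hy
  induction hx using Subgroup.closure_induction with
  | mem x hx =>
    obtain ⟨a, ha, b, hb, rfl⟩ := hx
    induction hy using Subgroup.closure_induction with
    | mem y hy =>
      obtain ⟨c, hc, d, hd, rfl⟩ := hy
      exact h a ha b hb c hc d hd
    | one => simp
    | mul y z _ _ hy hz =>
      have : q * (y * z) * q⁻¹ = (q * y * q⁻¹) * (q * z * q⁻¹) := by group
      rw [this]
      exact hy.mul_right hz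
    | inv y _ hy =>
      have : q * y⁻¹ * q⁻¹ = (q * y * q⁻¹)⁻¹ := by group
      rw [this]
      exact hy.inv_right
  | one => simp
  | mul x z _ _ hx hz =>
    have : p * (x * z) * p⁻¹ = (p * x * p⁻¹) * (p * z * p⁻¹) := by group
    rw [this]
    exact hx.mul_left hz
  | inv x _ hx =>
    have : p * x⁻¹ * p⁻¹ = (p * x * p⁻¹)⁻¹ := by group
    rw [this]
    exact hx.inv_left

/-- PART B: situation (*) is impossible for an amenable group. -/
theorem star_false {G : Type u} [Group G] (S : Star G) (hG : Amen G) : False := by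
  classical
  obtain ⟨M0⟩ := hG
  obtain ⟨M, hM⟩ := exists_two_sided M0
  obtain ⟨X⟩ := exists_tdata S M hM
  have hcbm : CbM (NS X.e (Set.univ : Set G)) := by
    intro x hx y hy z hz t ht v hv
    obtain ⟨s1, h1⟩ := exists_fin X.e hx
    obtain ⟨s2, h2⟩ := exists_fin X.e hy
    obtain ⟨s3, h3⟩ := exists_fin X.e hz
    obtain ⟨s4, h4⟩ := exists_fin X.e ht
    obtain ⟨s5, h5⟩ := exists_fin X.e hv
    let s : Finset G := s1 ∪ (s2 ∪ (s3 ∪ (s4 ∪ s5)))
    have k1 : (s1 : Set G) ⊆ s := by
      intro z hz; simp only [s, Finset.coe_union, Set.mem_union]; tauto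
    have k2 : (s2 : Set G) ⊆ s := by
      intro z hz; simp only [s, Finset.coe_union, Set.mem_union]; tauto
    have k3 : (s3 : Set G) ⊆ s := by
      intro z hz; simp only [s, Finset.coe_union, Set.mem_union]; tauto
    have k4 : (s4 : Set G) ⊆ s := by
      intro z hz; simp only [s, Finset.coe_union, Set.mem_union]; tauto
    have k5 : (s5 : Set G) ⊆ s := by
      intro z hz; simp only [s, Finset.coe_union, Set.mem_union]; tauto
    obtain ⟨g, hg⟩ := exists_conj S M X s.card (fun i => (s.equivFin.symm i : G))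
    have hc : CbM (NS X.e (s : Set G)) := by
      refine cbm_of_conj S.toDC _ g fun a b hab => commute_closure X.e (g a) (g b) _ ?_
      intro a' ha' b' hb' c' hc' d' hd'
      have := hg a b hab (s.equivFin ⟨a', ha'⟩) (s.equivFin ⟨b', hb'⟩) (s.equivFin ⟨c', hc'⟩)
        (s.equivFin ⟨d', hd'⟩)
      simpa using this
    exact hc x (NS_mono _ k1 h1) y (NS_mono _ k2 h2) z (NS_mono _ k3 h3) t (NS_mono _ k4 h4) v
      (NS_mono _ k5 h5)
  have hbot : NS X.e (Set.univ : Set G) = ⊥ := S.hS _ (NS_normal _) hcbm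
  have hcen : ∀ h : G, h * X.e * h⁻¹ = X.e := by
    intro h
    have h1 : D X.e h 1 ∈ NS X.e (Set.univ : Set G) :=
      Subgroup.subset_closure ⟨h, Set.mem_univ _, 1, Set.mem_univ _, rfl⟩
    rw [hbot, Subgroup.mem_bot] at h1
    unfold D at h1
    rw [mul_inv_eq_one] at h1
    simpa using h1
  have hN : (Subgroup.zpowers X.e).Normal := by
    refine ⟨fun n hn g => ?_⟩
    obtain ⟨k, rfl⟩ := Subgroup.mem_zpowers_iff.1 hn
    rw [← conj_zpow, hcen]
    exact Subgroup.zpow_mem _ (Subgroup.mem_zpowers _) _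
  have hN' : CbM (Subgroup.zpowers X.e) := by
    intro x hx y hy z hz t ht v hv
    obtain ⟨a, rfl⟩ := Subgroup.mem_zpowers_iff.1 hx
    obtain ⟨b, rfl⟩ := Subgroup.mem_zpowers_iff.1 hy
    have : ⁅X.e ^ a, X.e ^ b⁆ = 1 :=
      commutatorElement_eq_one_iff_commute.2 ((Commute.refl X.e).zpow_zpow a b)
    rw [this]
    simp
  have h2 := S.hS _ hN hN'
  rw [Subgroup.zpowers_eq_bot] at h2
  exact X.he h2

end Pool.Agent.AQB
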