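import Pool.Agent.AQB.MeanB

/-!
# AQB-Hilb: the Hilbert space of a mean

PROOF. The bounded functions on `G` form a real vector space `V`; `⟪f, f'⟫ = m (f f')` is a positive
semidefinite symmetric bilinear form (`PreInnerProductSpace.Core`); `H` is the completion of the
separation quotient (Mathlib: `UniformSpace.Completion`, `InnerProductSpace` instances). `G` acts by
`(g f) x = f (g⁻¹ x)`, isometrically; extend to the completion.  `v S` is the class of the indicator
function of `S`. (If preferred: any other construction of such an `H`, e.g. from the kernel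
`(S, S') ↦ mu (S ∩ S')`.)
-/

set_option autoImplicit false

universe u

namespace Pool.Agent.AQB

/-- the space of bounded functions -/
def bddSub (G : Type u) : Submodule ℝ (G → ℝ) where
  carrier := {f | Bdd f}
  add_mem' := fun h h' => h.add h'
  zero_mem' := ⟨0, fun x => by simp⟩
  smul_mem' := fun a _ h => h.smul a

/-- the bounded functions, with the seminorm given by the mean `M` -/
def BV {G : Type u} [Group G] (_ : Mean G) : Type u := bddSub G

section

variable {G : Type u} [Group G] (M : Mean G)

noncomputable instance : AddCommGroup (BV M) := inferInstanceAs (AddCommGroup (bddSub G))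

noncomputable instance : Module ℝ (BV M) := inferInstanceAs (Module ℝ (bddSub G))

/-- the underlying function -/
def BV.f {M : Mean G} (x : BV M) : G → ℝ := x.1

theorem BV.bdd {M : Mean G} (x : BV M) : Bdd x.f := x.2

theorem BV.ext {M : Mean G} {x y : BV M} (h : x.f = y.f) : x = y := Subtype.ext h

theorem BV.f_add {M : Mean G} (x y : BV M) : (x + y).f = x.f + y.f := rfl

theorem BV.f_smul {M : Mean G} (a : ℝ) (x : BV M) : (a • x).f = a • x.f := rfl

/-- the inner product -/
@[instance_reducible]
noncomputable def coreM : PreInnerProductSpace.Core ℝ (BV M) where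
  inner x y := M.m (x.f * y.f)
  conj_inner_symm x y := by
    simp only [conj_trivial]
    rw [mul_comm]
  re_inner_nonneg x := by
    simp only [RCLike.re_to_real]
    exact M.nonneg _ (x.bdd.mul x.bdd) fun t => mul_self_nonneg _
  add_left x y z := by
    rw [BV.f_add, add_mul, M.add _ _ (x.bdd.mul z.bdd) (y.bdd.mul z.bdd)]
  smul_left x y r := by
    simp only [conj_trivial]
    rw [BV.f_smul, smul_mul_assoc, M.smul _ _ (x.bdd.mul y.bdd)]

noncomputable instance : SeminormedAddCommGroup (BV M) :=
  @InnerProductSpace.Core.toSeminormedAddCommGroup ℝ (BV M) _ _ _ (coreM M)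

noncomputable instance : InnerProductSpace ℝ (BV M) := InnerProductSpace.ofCore (coreM M)

theorem inner_def (x y : BV M) : inner ℝ x y = M.m (x.f * y.f) := rfl

/-- translation of bounded functions -/
noncomputable def actL (g : G) : BV M →ₗ[ℝ] BV M where
  toFun x := ⟨fun t => x.f (g⁻¹ * t), x.bdd.comp _⟩
  map_add' _ _ := rfl
  map_smul' _ _ := rfl

theorem actL_f (g : G) (x : BV M) : (actL M g x).f = fun t => x.f (g⁻¹ * t) := rfl

theorem inner_actL (g : G) (x y : BV M) : inner ℝ (actL M g x) (actL M g y) = inner ℝ x y := by
  rw [inner_def, inner_def, actL_f, actL_f]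
  exact M.left g (x.f * y.f) (x.bdd.mul y.bdd)

theorem norm_actL (g : G) (x : BV M) : ‖actL M g x‖ = ‖x‖ := by
  rw [norm_eq_sqrt_real_inner, norm_eq_sqrt_real_inner, inner_actL]

/-- translation as a continuous map -/
noncomputable def actC (g : G) : BV M →L[ℝ] BV M :=
  (⟨actL M g, norm_actL M g⟩ : BV M →ₗᵢ[ℝ] BV M).toContinuousLinearMap

theorem actC_apply (g : G) (x : BV M) : actC M g x = actL M g x := rfl

/-- the Hilbert space of the mean -/
abbrev HM : Type u := UniformSpace.Completion (BV M)

/-- translation on the Hilbert space -/
noncomputable def actH (g : G) : HM M →L[ℝ] HM M := (actC M g).completion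

theorem actH_coe (g : G) (x : BV M) : actH M g (x : HM M) = ((actL M g x : BV M) : HM M) :=
  ContinuousLinearMap.completion_apply_coe _ _

theorem actH_mul (g h : G) (x : HM M) : actH M (g * h) x = actH M g (actH M h x) := by
  induction x using UniformSpace.Completion.induction_on with
  | hp => exact isClosed_eq (by fun_prop) (by fun_prop)
  | ih x =>
    rw [actH_coe, actH_coe, actH_coe]
    congr 1
    apply BV.ext
    rw [actL_f, actL_f, actL_f]
    funext t
    rw [mul_inv_rev, mul_assoc]

theorem actH_one (x : HM M) : actH M 1 x = x := by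
  induction x using UniformSpace.Completion.induction_on with
  | hp => exact isClosed_eq (by fun_prop) (by fun_prop)
  | ih x =>
    rw [actH_coe]
    congr 1
    apply BV.ext
    rw [actL_f]
    funext t
    rw [inv_one, one_mul]

theorem norm_actH (g : G) (x : HM M) : ‖actH M g x‖ = ‖x‖ := by
  induction x using UniformSpace.Completion.induction_on with
  | hp => exact isClosed_eq (by fun_prop) (by fun_prop)
  | ih x => rw [actH_coe, UniformSpace.Completion.norm_coe, UniformSpace.Completion.norm_coe,
      norm_actL]

/-- the isometric action -/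
noncomputable def rhoM : G →* (HM M ≃ₗᵢ[ℝ] HM M) where
  toFun g :=
    { toFun := actH M g
      invFun := actH M g⁻¹
      left_inv := fun x => by rw [← actH_mul, inv_mul_cancel, actH_one]
      right_inv := fun x => by rw [← actH_mul, mul_inv_cancel, actH_one]
      map_add' := fun x y => map_add _ x y
      map_smul' := fun a x => map_smul _ a x
      norm_map' := fun x => norm_actH M g x }
  map_one' := by
    ext x
    exact actH_one M x
  map_mul' g h := by
    ext x
    exact actH_mul M g h x

/-- the indicator function of a set as a bounded function -/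
noncomputable def indB (S : Set G) : BV M := ⟨S.indicator 1, bdd_indicator S⟩

theorem indB_f (S : Set G) : (indB M S).f = S.indicator 1 := rfl

end

theorem exists_hilbert {G : Type u} [Group G] (M : Mean G) :
    ∃ (H : Type u) (_ : NormedAddCommGroup H) (_ : InnerProductSpace ℝ H) (_ : CompleteSpace H)
      (ρ : G →* (H ≃ₗᵢ[ℝ] H)) (v : Set G → H),
      (∀ S S' : Set G, inner ℝ (v S) (v S') = M.mu (S ∩ S')) ∧
      (∀ (g : G) (S : Set G), ρ g (v S) = v (tr g S)) := by
  refine ⟨HM M, inferInstance, inferInstance, inferInstance, rhoM M, fun S => (indB M S : HM M),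
    fun S S' => ?_, fun g S => ?_⟩
  · rw [UniformSpace.Completion.inner_coe, inner_def, indB_f, indB_f, Mean.mu]
    congr 1
    funext x
    by_cases h : x ∈ S <;> by_cases h' : x ∈ S' <;> simp [h, h']
  · show actH M g (indB M S : HM M) = _
    rw [actH_coe]
    congr 1

end Pool.Agent.AQB
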