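import Mathlib

/-!
# Ito's calculation (copied from the ProductBound hand-in, so that nothing here imports a hand-in)
-/

set_option autoImplicit false

universe u v

open scoped commutatorElement

namespace Pool.Agent.AQB.ItoFour

section ito

variable {G : Type u} [Group G] {A B : Subgroup G}

/-- the product set -/
def InProd (A B : Subgroup G) (g : G) : Prop := ∃ a ∈ A, ∃ b ∈ B, g = a * b

/-- Ito's calculation: `c(g,a) = a g⁻¹ a⁻¹ g`. If `g, g', g a', g' a` lie in `AB`, then `c(g,a)` and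
`c(g',a')` commute. Here for `g = b`, `g' = b'` in `B`. -/
theorem ito_core (hA : ∀ x ∈ A, ∀ y ∈ A, x * y = y * x) (hB : ∀ x ∈ B, ∀ y ∈ B, x * y = y * x)
    {a a' b b' : G} (ha' : a' ∈ A) (hb : b ∈ B) (hb' : b' ∈ B)
    (h : InProd A B (b * a')) (h' : InProd A B (b' * a)) (ha : a ∈ A) :
    Commute (a * b⁻¹ * a⁻¹ * b) (a' * b'⁻¹ * a'⁻¹ * b') := by
  obtain ⟨α, hα, β, hβ, h⟩ := h
  obtain ⟨α', hα', β', hβ', h'⟩ := h'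
  have c1 : b * b'⁻¹ = b'⁻¹ * b := hB _ hb _ (inv_mem hb')
  have c2 : β' * b⁻¹ = b⁻¹ * β' := hB _ hβ' _ (inv_mem hb)
  have c3 : a'⁻¹ * α' = α' * a'⁻¹ := hA _ (inv_mem ha') _ hα'
  have c4 : α⁻¹ * α'⁻¹ = α'⁻¹ * α⁻¹ := hA _ (inv_mem hα) _ (inv_mem hα')
  have c5 : a'⁻¹ * a = a * a'⁻¹ := hA _ (inv_mem ha') _ ha
  have c6 : a⁻¹ * α = α * a⁻¹ := hA _ (inv_mem ha) _ hα
  have c7 : β' * β⁻¹ = β⁻¹ * β' := hB _ hβ' _ (inv_mem hβ)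
  have c8 : β * b'⁻¹ = b'⁻¹ * β := hB _ hβ _ (inv_mem hb')
  have c9 : a⁻¹ * a' = a' * a⁻¹ := hA _ (inv_mem ha) _ ha'
  have e1 : a'⁻¹ * b' * (a * b⁻¹ * a⁻¹ * b) * b'⁻¹ * a' = α' * β⁻¹ * α'⁻¹ * β := by
    calc a'⁻¹ * b' * (a * b⁻¹ * a⁻¹ * b) * b'⁻¹ * a'
        = a'⁻¹ * (b' * a) * b⁻¹ * a⁻¹ * (b * b'⁻¹) * a' := by group
      _ = a'⁻¹ * (b' * a) * b⁻¹ * a⁻¹ * (b'⁻¹ * b) * a' := by rw [c1]
      _ = a'⁻¹ * (b' * a) * b⁻¹ * (b' * a)⁻¹ * (b * a') := by group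
      _ = a'⁻¹ * (α' * β') * b⁻¹ * (α' * β')⁻¹ * (α * β) := by rw [h, h']
      _ = (a'⁻¹ * α') * (β' * b⁻¹) * β'⁻¹ * α'⁻¹ * (α * β) := by group
      _ = (α' * a'⁻¹) * (b⁻¹ * β') * β'⁻¹ * α'⁻¹ * (α * β) := by rw [c3, c2]
      _ = α' * (b * a')⁻¹ * α'⁻¹ * (α * β) := by group
      _ = α' * (α * β)⁻¹ * α'⁻¹ * (α * β) := by rw [h]
      _ = α' * β⁻¹ * (α⁻¹ * α'⁻¹) * α * β := by group
      _ = α' * β⁻¹ * (α'⁻¹ * α⁻¹) * α * β := by rw [c4]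
      _ = α' * β⁻¹ * α'⁻¹ * β := by group
  have e2 : b' * a'⁻¹ * (a * b⁻¹ * a⁻¹ * b) * a' * b'⁻¹ = α' * β⁻¹ * α'⁻¹ * β := by
    calc b' * a'⁻¹ * (a * b⁻¹ * a⁻¹ * b) * a' * b'⁻¹
        = b' * (a'⁻¹ * a) * b⁻¹ * a⁻¹ * (b * a') * b'⁻¹ := by group
      _ = b' * (a * a'⁻¹) * b⁻¹ * a⁻¹ * (b * a') * b'⁻¹ := by rw [c5]
      _ = b' * a * (b * a')⁻¹ * a⁻¹ * (b * a') * b'⁻¹ := by group
      _ = b' * a * (α * β)⁻¹ * a⁻¹ * (α * β) * b'⁻¹ := by rw [h]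
      _ = b' * a * β⁻¹ * α⁻¹ * (a⁻¹ * α) * β * b'⁻¹ := by group
      _ = b' * a * β⁻¹ * α⁻¹ * (α * a⁻¹) * β * b'⁻¹ := by rw [c6]
      _ = (b' * a) * β⁻¹ * a⁻¹ * (β * b'⁻¹) := by group
      _ = (b' * a) * β⁻¹ * a⁻¹ * (b'⁻¹ * β) := by rw [c8]
      _ = (b' * a) * β⁻¹ * (b' * a)⁻¹ * β := by group
      _ = (α' * β') * β⁻¹ * (α' * β')⁻¹ * β := by rw [h']
      _ = α' * (β' * β⁻¹) * β'⁻¹ * α'⁻¹ * β := by group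
      _ = α' * (β⁻¹ * β') * β'⁻¹ * α'⁻¹ * β := by rw [c7]
      _ = α' * β⁻¹ * α'⁻¹ * β := by group
  have e3 := e1.trans e2.symm
  have e4 : (a * b⁻¹ * a⁻¹ * b) * (a' * b'⁻¹ * a'⁻¹ * b') =
      (a' * b'⁻¹) * (b' * a'⁻¹ * (a * b⁻¹ * a⁻¹ * b) * a' * b'⁻¹) * (a'⁻¹ * b') := by group
  show (a * b⁻¹ * a⁻¹ * b) * (a' * b'⁻¹ * a'⁻¹ * b') =
    (a' * b'⁻¹ * a'⁻¹ * b') * (a * b⁻¹ * a⁻¹ * b)
  rw [e4, ← e3]
  group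

/-- If `x_i, x_i⁻¹, x_i x_j⁻¹` lie in `AB` (`A`, `B` abelian), then all commutators of the `x_i⁻¹`
commute. -/
theorem four (hA : ∀ x ∈ A, ∀ y ∈ A, x * y = y * x) (hB : ∀ x ∈ B, ∀ y ∈ B, x * y = y * x)
    {I : Type} (x : I → G) (h1 : ∀ i, InProd A B (x i)) (h2 : ∀ i, InProd A B (x i)⁻¹)
    (h3 : ∀ i j, InProd A B (x i * (x j)⁻¹)) (i j k l : I) :
    Commute ⁅(x i)⁻¹, (x j)⁻¹⁆ ⁅(x k)⁻¹, (x l)⁻¹⁆ := by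
  choose p hp q hq h1 using h1
  choose α hα b hb h2 using h2
  have h2' : ∀ i, x i = (b i)⁻¹ * (α i)⁻¹ := fun i => by
    rw [← mul_inv_rev, ← h2, inv_inv]
  have h4 : ∀ i j, InProd A B (q i * α j) := fun i j => by
    obtain ⟨c, hc, d, hd, h⟩ := h3 i j
    refine ⟨(p i)⁻¹ * c, mul_mem (inv_mem (hp i)) hc, d * (b j)⁻¹, mul_mem hd (inv_mem (hb j)), ?_⟩
    have : (p i)⁻¹ * (x i * (x j)⁻¹) * (b j)⁻¹ = q i * α j := by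
      rw [h2 j, h1 i]
      group
    rw [← this, h]
    group
  have comm : ∀ i j k l, Commute (α j * (q i)⁻¹ * (α j)⁻¹ * q i) (α l * (q k)⁻¹ * (α l)⁻¹ * q k) :=
    fun i j k l => ito_core hA hB (hα l) (hq i) (hq k) (h4 i l) (h4 k j) (hα j)
  have key : ∀ i j, α j * (q i)⁻¹ * (α j)⁻¹ * q i = α j * (x i)⁻¹ * (α j)⁻¹ * x i := fun i j => by
    have c1 : (p i)⁻¹ * (α j)⁻¹ = (α j)⁻¹ * (p i)⁻¹ := hA _ (inv_mem (hp i)) _ (inv_mem (hα j))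
    rw [h1 i]
    calc α j * (q i)⁻¹ * (α j)⁻¹ * q i = α j * (q i)⁻¹ * ((α j)⁻¹ * (p i)⁻¹) * p i * q i := by group
      _ = α j * (q i)⁻¹ * ((p i)⁻¹ * (α j)⁻¹) * p i * q i := by rw [c1]
      _ = α j * (p i * q i)⁻¹ * (α j)⁻¹ * (p i * q i) := by group
  have form : ∀ i j, ⁅(x i)⁻¹, (x j)⁻¹⁆ =
      (α j * (q i)⁻¹ * (α j)⁻¹ * q i)⁻¹ * (α i * (q j)⁻¹ * (α i)⁻¹ * q j) := fun i j => by
    rw [key, key, commutatorElement_def]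
    have c1 : (α i)⁻¹ * (α j)⁻¹ = (α j)⁻¹ * (α i)⁻¹ := hA _ (inv_mem (hα i)) _ (inv_mem (hα j))
    have c2 : (b i)⁻¹ * b j = b j * (b i)⁻¹ := hB _ (inv_mem (hb i)) _ (hb j)
    have e : α j * x i * (α j)⁻¹ * α i * (x j)⁻¹ * (α i)⁻¹ = (x j)⁻¹ * x i := by
      rw [h2 j, h2' i]
      calc α j * ((b i)⁻¹ * (α i)⁻¹) * (α j)⁻¹ * α i * (α j * b j) * (α i)⁻¹
          = α j * (b i)⁻¹ * ((α i)⁻¹ * (α j)⁻¹) * α i * α j * b j * (α i)⁻¹ := by group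
        _ = α j * (b i)⁻¹ * ((α j)⁻¹ * (α i)⁻¹) * α i * α j * b j * (α i)⁻¹ := by rw [c1]
        _ = α j * ((b i)⁻¹ * b j) * (α i)⁻¹ := by group
        _ = α j * (b j * (b i)⁻¹) * (α i)⁻¹ := by rw [c2]
        _ = α j * b j * ((b i)⁻¹ * (α i)⁻¹) := by group
    calc (x i)⁻¹ * (x j)⁻¹ * (x i)⁻¹⁻¹ * (x j)⁻¹⁻¹ = (x i)⁻¹ * ((x j)⁻¹ * x i) * x j := by group
      _ = (x i)⁻¹ * (α j * x i * (α j)⁻¹ * α i * (x j)⁻¹ * (α i)⁻¹) * x j := by rw [e]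
      _ = _ := by group
  rw [form, form]
  exact ((comm i j k l).inv_left.mul_left (comm j i k l)).inv_right.mul_right
    ((comm i j l k).inv_left.mul_left (comm j i l k))

end ito

end Pool.Agent.AQB.ItoFour
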