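import Pool.Agent.AQB.Defs

/-!
# AQB-Mean: elementary properties of means; two-sided means
-/

set_option autoImplicit false

namespace Pool.Agent.AQB

variable {G : Type*} [Group G]

theorem Bdd.add {X : Type*} {f f' : X → ℝ} (h : Bdd f) (h' : Bdd f') : Bdd (f + f') := by
  obtain ⟨c, hc⟩ := h
  obtain ⟨c', hc'⟩ := h'
  exact ⟨c + c', fun x => (abs_add_le _ _).trans (add_le_add (hc x) (hc' x))⟩

theorem Bdd.smul {X : Type*} {f : X → ℝ} (a : ℝ) (h : Bdd f) : Bdd (a • f) := by
  obtain ⟨c, hc⟩ := h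
  refine ⟨|a| * c, fun x => ?_⟩
  rw [Pi.smul_apply, smul_eq_mul, abs_mul]
  exact mul_le_mul_of_nonneg_left (hc x) (abs_nonneg _)

theorem Bdd.mul {X : Type*} {f f' : X → ℝ} (h : Bdd f) (h' : Bdd f') : Bdd (f * f') := by
  obtain ⟨c, hc⟩ := h
  obtain ⟨c', hc'⟩ := h'
  refine ⟨c * c', fun x => ?_⟩
  rw [Pi.mul_apply, abs_mul]
  exact mul_le_mul (hc x) (hc' x) (abs_nonneg _) ((abs_nonneg _).trans (hc x))

theorem Bdd.comp {X Y : Type*} {f : X → ℝ} (h : Bdd f) (φ : Y → X) : Bdd fun y => f (φ y) := by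
  obtain ⟨c, hc⟩ := h
  exact ⟨c, fun y => hc _⟩

theorem bdd_const {X : Type*} (a : ℝ) : Bdd fun _ : X => a := ⟨|a|, fun _ => le_rfl⟩

theorem bdd_indicator {X : Type*} (S : Set X) : Bdd (S.indicator (1 : X → ℝ)) := by
  refine ⟨1, fun x => ?_⟩
  by_cases h : x ∈ S <;> simp [h]

theorem mean_sub (M : Mean G) {f f' : G → ℝ} (hf : Bdd f) (hf' : Bdd f') :
    M.m (f' - f) = M.m f' - M.m f := by
  have h1 : f' - f = f' + (-1 : ℝ) • f := by
    funext x
    simp [sub_eq_add_neg]
  rw [h1, M.add _ _ hf' (hf.smul _), M.smul _ _ hf]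
  ring

theorem mean_mono (M : Mean G) {f f' : G → ℝ} (hf : Bdd f) (hf' : Bdd f') (h : ∀ x, f x ≤ f' x) :
    M.m f ≤ M.m f' := by
  have h1 : Bdd (f' - f) := by
    have h2 : f' - f = f' + (-1 : ℝ) • f := by
      funext x
      simp [sub_eq_add_neg]
    rw [h2]
    exact hf'.add (hf.smul _)
  have h3 := M.nonneg (f' - f) h1 fun x => sub_nonneg.2 (h x)
  rw [mean_sub M hf hf'] at h3
  exact sub_nonneg.1 h3

theorem mean_const (M : Mean G) (c : ℝ) : M.m (fun _ => c) = c := by
  have h1 : (fun _ : G => c) = c • (1 : G → ℝ) := by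
    funext x
    simp
  have h2 : Bdd (1 : G → ℝ) := bdd_const 1
  rw [h1, M.smul _ _ h2, M.one, mul_one]

/-- `|m f| ≤ c` if `|f| ≤ c`. -/
theorem mean_abs_le (M : Mean G) {f : G → ℝ} {c : ℝ} (h : ∀ x, |f x| ≤ c) : |M.m f| ≤ c := by
  have hf : Bdd f := ⟨c, h⟩
  rw [abs_le]
  constructor
  · have h1 := mean_mono M (bdd_const (-c)) hf fun x => (abs_le.1 (h x)).1
    rwa [mean_const] at h1
  · have h1 := mean_mono M hf (bdd_const c) fun x => (abs_le.1 (h x)).2
    rwa [mean_const] at h1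

theorem mu_nonneg (M : Mean G) (S : Set G) : 0 ≤ M.mu S :=
  M.nonneg _ (bdd_indicator S) fun x => Set.indicator_nonneg (fun _ _ => zero_le_one) x

theorem mu_univ (M : Mean G) : M.mu Set.univ = 1 := by
  rw [Mean.mu, Set.indicator_univ, M.one]

theorem mu_empty (M : Mean G) : M.mu ∅ = 0 := by
  rw [Mean.mu, Set.indicator_empty]
  exact mean_const M 0

theorem mu_mono (M : Mean G) {S S' : Set G} (h : S ⊆ S') : M.mu S ≤ M.mu S' :=
  mean_mono M (bdd_indicator S) (bdd_indicator S') fun x =>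
    Set.indicator_le_indicator_of_subset h (fun _ => zero_le_one) x

theorem mu_union_le (M : Mean G) (S S' : Set G) : M.mu (S ∪ S') ≤ M.mu S + M.mu S' := by
  rw [Mean.mu, Mean.mu, Mean.mu, ← M.add _ _ (bdd_indicator S) (bdd_indicator S')]
  refine mean_mono M (bdd_indicator _) ((bdd_indicator _).add (bdd_indicator _)) fun x => ?_
  by_cases h : x ∈ S <;> by_cases h' : x ∈ S' <;> simp [h, h']

theorem mu_union (M : Mean G) {S S' : Set G} (h : Disjoint S S') :
    M.mu (S ∪ S') = M.mu S + M.mu S' := by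
  rw [Mean.mu, Mean.mu, Mean.mu, ← M.add _ _ (bdd_indicator S) (bdd_indicator S')]
  congr 1
  funext x
  by_cases h1 : x ∈ S
  · have h2 : x ∉ S' := Set.disjoint_left.1 h h1
    simp [h1, h2]
  · by_cases h2 : x ∈ S' <;> simp [h1, h2]

theorem mu_tr (M : Mean G) (g : G) (S : Set G) : M.mu (tr g S) = M.mu S := by
  rw [Mean.mu, Mean.mu, ← M.left g _ (bdd_indicator S)]
  congr 1

theorem mu_right (M : Mean G) (hM : M.RightInv) (g : G) (S : Set G) :
    M.mu {x | x * g ∈ S} = M.mu S := by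
  rw [Mean.mu, Mean.mu, ← hM g _ (bdd_indicator S)]
  congr 1

/-- One of finitely many sets covering `G` has positive mean. -/
theorem exists_pos_of_cover (M : Mean G) {ι : Type*} (s : Finset ι) (S : ι → Set G)
    (h : ∀ x, ∃ i ∈ s, x ∈ S i) : ∃ i ∈ s, 0 < M.mu (S i) := by
  classical
  by_contra hcon
  push Not at hcon
  have h1 : ∀ t : Finset ι, t ⊆ s → M.mu (⋃ i ∈ t, S i) ≤ 0 := by
    intro t
    induction t using Finset.induction_on with
    | empty =>
      intro _
      simp [mu_empty]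
    | insert a t ha ih =>
      intro ht
      rw [Finset.set_biUnion_insert]
      have h2 := ih ((Finset.subset_insert a t).trans ht)
      have h3 := hcon a (ht (Finset.mem_insert_self a t))
      exact (mu_union_le M _ _).trans (by linarith)
  have h2 := h1 s (Finset.Subset.refl s)
  have h3 : (⋃ i ∈ s, S i) = Set.univ := by
    rw [Set.eq_univ_iff_forall]
    intro x
    obtain ⟨i, hi, hx⟩ := h x
    exact Set.mem_biUnion hi hx
  rw [h3, mu_univ] at h2
  linarith

/-- Pigeonhole: infinitely many sets of mean `≥ θ > 0`. (Otherwise the indicator functions satisfy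
`m ((Σ_{i<n} 1_{S i} )²) = Σ_i m (S i) ≤ n`, but `(Σ - 1)... ` ; simplest: put
`U_n = ⋃_{i<n} S i`; if all pairwise intersections have mean zero then `mu U_n = Σ_{i<n} mu (S i) ≥ n θ`
by induction (`mu (U ∩ S n) = 0` by subadditivity), but `mu U_n ≤ 1`.) -/
theorem pigeon (M : Mean G) {θ : ℝ} (hθ : 0 < θ) (S : ℕ → Set G) (h : ∀ i, θ ≤ M.mu (S i)) :
    ∃ i j, i < j ∧ 0 < M.mu (S i ∩ S j) := by
  by_contra hcon
  push Not at hcon
  let U : ℕ → Set G := fun n => ⋃ i ∈ Finset.range n, S i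
  have hUS : ∀ n, M.mu (U n ∩ S n) ≤ 0 := by
    intro n
    have h1 : ∀ k, k ≤ n → M.mu (U k ∩ S n) ≤ 0 := by
      intro k
      induction k with
      | zero =>
        intro _
        simp [U, mu_empty]
      | succ k ih =>
        intro hk
        have h2 : U (k + 1) ∩ S n = (S k ∩ S n) ∪ (U k ∩ S n) := by
          simp only [U]
          rw [Finset.range_add_one, Finset.set_biUnion_insert, Set.union_inter_distrib_right]
        rw [h2]
        exact (mu_union_le M _ _).trans (by linarith [ih (by omega), hcon k n (by omega)])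
    exact h1 n le_rfl
  have hU : ∀ n : ℕ, n * θ ≤ M.mu (U n) := by
    intro n
    induction n with
    | zero => simpa using mu_nonneg M _
    | succ n ih =>
      have h1 : M.mu (S n) ≤ M.mu (S n \ U n) + M.mu (U n ∩ S n) := by
        have h2 : S n ⊆ (S n \ U n) ∪ (U n ∩ S n) := by
          intro x hx
          by_cases h3 : x ∈ U n
          · exact Or.inr ⟨h3, hx⟩
          · exact Or.inl ⟨hx, h3⟩
        exact (mu_mono M h2).trans (mu_union_le M _ _)
      have h2 : M.mu (U (n + 1)) = M.mu (U n) + M.mu (S n \ U n) := by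
        rw [← mu_union M Set.disjoint_sdiff_right]
        congr 1
        simp only [U]
        rw [Finset.range_add_one, Finset.set_biUnion_insert, Set.union_sdiff_self, Set.union_comm]
      push_cast
      linarith [h n, hUS n]
  obtain ⟨n, hn⟩ := exists_nat_gt (1 / θ)
  have h1 : M.mu (U n) ≤ 1 := by
    rw [← mu_univ M]
    exact mu_mono M (Set.subset_univ _)
  have h2 := hU n
  rw [div_lt_iff₀ hθ] at hn
  linarith

/-- `m'(f) = m_g (m_h (f (h g⁻¹)))` is left and right invariant.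
`F(g) = m_h (f (h g⁻¹))` is bounded by `mean_abs_le`; left invariance: `f (k⁻¹ h g⁻¹)`, inner left
invariance; right invariance: `f (h g⁻¹ k) = f (h (k⁻¹ g)⁻¹)`, i.e. `F (k⁻¹ g)`, outer left invariance. -/
theorem exists_two_sided (M : Mean G) : ∃ M' : Mean G, M'.RightInv := by
  have hb : ∀ f : G → ℝ, Bdd f → Bdd fun g => M.m fun h => f (h * g⁻¹) := by
    rintro f ⟨c, hc⟩
    exact ⟨c, fun g => mean_abs_le M fun h => hc _⟩
  refine ⟨{ m := fun f => M.m fun g => M.m fun h => f (h * g⁻¹)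
            add := ?_, smul := ?_, nonneg := ?_, one := ?_, left := ?_ }, ?_⟩
  · intro f f' hf hf'
    rw [← M.add _ _ (hb f hf) (hb f' hf')]
    congr 1
    funext g
    exact M.add (fun h => f (h * g⁻¹)) (fun h => f' (h * g⁻¹)) (hf.comp _) (hf'.comp _)
  · intro a f hf
    rw [← M.smul _ _ (hb f hf)]
    congr 1
    funext g
    exact M.smul a (fun h => f (h * g⁻¹)) (hf.comp _)
  · intro f hf hf0
    exact M.nonneg _ (hb f hf) fun g => M.nonneg _ (hf.comp _) fun h => hf0 _
  · have h1 : (fun g : G => M.m fun h => (1 : G → ℝ) (h * g⁻¹)) = 1 := by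
      funext g
      exact M.one
    rw [h1, M.one]
  · intro k f hf
    congr 1
    funext g
    have h1 := M.left k (fun h => f (h * g⁻¹)) (hf.comp _)
    rw [← h1]
    congr 1
    funext h
    rw [mul_assoc]
  · intro k f hf
    have h1 := M.left k _ (hb f hf)
    have h2 : ∀ g h : G, f (h * g⁻¹ * k) = f (h * (k⁻¹ * g)⁻¹) := by
      intro g h
      congr 1
      group
    show (M.m fun g => M.m fun h => f (h * g⁻¹ * k)) = M.m fun g => M.m fun h => f (h * g⁻¹)
    simp only [h2]
    exact h1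

end Pool.Agent.AQB
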