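import Pool.Agent.AQB.Defs

/-!
# AQB-OfProduct: a product of two almost abelian groups is a finite union of double cosets
-/

set_option autoImplicit false

universe u

namespace Pool.Agent.AQB

theorem dc_of_product {G : Type u} [Group G] (A B H K : Subgroup G)
    (hAB : ∀ g : G, ∃ a ∈ A, ∃ b ∈ B, g = a * b)
    (fH : (H.subgroupOf A).FiniteIndex) (cH : ∀ x ∈ H, ∀ y ∈ H, x * y = y * x)
    (fK : (K.subgroupOf B).FiniteIndex) (cK : ∀ x ∈ K, ∀ y ∈ K, x * y = y * x) :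
    Nonempty (DC G) := by
  classical
  have _ : Fintype (A ⧸ H.subgroupOf A) := Fintype.ofFinite _
  have _ : Fintype (B ⧸ K.subgroupOf B) := Fintype.ofFinite _
  let T : Finset G := Finset.univ.image fun p : (A ⧸ H.subgroupOf A) × (B ⧸ K.subgroupOf B) =>
    ((p.1.out : A) : G)⁻¹ * ((p.2.out : B) : G)
  refine ⟨⟨H, K, T, cH, cK, fun g => ?_⟩⟩
  obtain ⟨a, ha, b, hb, rfl⟩ := hAB g
  let qa : A ⧸ H.subgroupOf A := QuotientGroup.mk (⟨a, ha⟩ : A)⁻¹
  let qb : B ⧸ K.subgroupOf B := QuotientGroup.mk (⟨b, hb⟩ : B)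
  have h1 : QuotientGroup.mk (qa.out) = (QuotientGroup.mk (⟨a, ha⟩ : A)⁻¹ : A ⧸ H.subgroupOf A) :=
    QuotientGroup.out_eq' qa
  have h2 : QuotientGroup.mk (qb.out) = (QuotientGroup.mk (⟨b, hb⟩ : B) : B ⧸ K.subgroupOf B) :=
    QuotientGroup.out_eq' qb
  rw [QuotientGroup.eq, Subgroup.mem_subgroupOf] at h1 h2
  have h1' : ((qa.out : A) : G)⁻¹ * a⁻¹ ∈ H := by simpa using h1
  have h2' : ((qb.out : B) : G)⁻¹ * b ∈ K := by simpa using h2
  refine ⟨a * ((qa.out : A) : G), ?_, ((qa.out : A) : G)⁻¹ * ((qb.out : B) : G), ?_,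
    ((qb.out : B) : G)⁻¹ * b, h2', ?_⟩
  · have := H.inv_mem h1'
    simpa using this
  · exact Finset.mem_image.2 ⟨(qa, qb), Finset.mem_univ _, rfl⟩
  · group

end Pool.Agent.AQB
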