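import Pool.Agent.AQB.Defs
import Pool.Agent.AO.Reduction
import Pool.Agent.Results.MP_00fcbb_al.ProductBound

/-!
# Part C: reduction of amenable double coset groups to the situation (*)
-/

set_option autoImplicit false
set_option linter.all false

open scoped commutatorElement

universe u

namespace Pool.Agent.AQB

open Pool.Agent.AO
open Pool.Agent.Results.MP_00fcbb_al.ProductBound (four)

/-- The subgroup `L ≥ C` of a double coset group. -/
theorem dc_sub {G : Type u} [Group G] (S : DC G) (L : Subgroup G) (hCL : S.C ≤ L) :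
    ∃ S' : DC L, S'.T.card ≤ S.T.card ∧ S'.C = S.C.subgroupOf L ∧
      ((∃ g : G, ∀ a ∈ S.A, ∀ l ∈ L, g ≠ a * l) → S'.T.card < S.T.card) := by
  classical
  let p : G → Prop := fun t => ∃ a ∈ S.A, a * t ∈ L
  let q : G → L := fun t => if h : p t then ⟨h.choose * t, h.choose_spec.2⟩ else 1
  have hq : ∀ t, (h : p t) → ∃ a ∈ S.A, (q t : G) = a * t := fun t h => by
    refine ⟨h.choose, h.choose_spec.1, ?_⟩
    simp only [q, dif_pos h]
  let T' : Finset L := (S.T.filter p).image q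
  have hT' : ∀ g : L, ∃ a ∈ S.A.subgroupOf L, ∃ t ∈ T', ∃ c ∈ S.C.subgroupOf L,
      g = a * t * c := by
    rintro ⟨g, hg⟩
    obtain ⟨a, ha, t, ht, c, hc, h⟩ := S.hT g
    have hat : a * t ∈ L := by
      have : a * t = g * c⁻¹ := by rw [h]; group
      rw [this]; exact mul_mem hg (inv_mem (hCL hc))
    have hp : p t := ⟨a, ha, hat⟩
    obtain ⟨a', ha', hqt⟩ := hq t hp
    have h1 : a * a'⁻¹ = (a * t) * (q t : G)⁻¹ := by rw [hqt]; group
    refine ⟨⟨a * a'⁻¹, by rw [h1]; exact mul_mem hat (inv_mem (q t).2)⟩,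
      Subgroup.mem_subgroupOf.2 (mul_mem ha (inv_mem ha')), q t,
      Finset.mem_image_of_mem _ (Finset.mem_filter.2 ⟨ht, hp⟩), ⟨c, hCL hc⟩,
      Subgroup.mem_subgroupOf.2 hc, Subtype.ext ?_⟩
    show g = a * a'⁻¹ * (q t : G) * c
    rw [hqt, h]; group
  refine ⟨⟨S.A.subgroupOf L, S.C.subgroupOf L, T', ?_, ?_, hT'⟩, ?_, rfl, ?_⟩
  · intro x hx y hy
    exact Subtype.ext (S.hA _ (Subgroup.mem_subgroupOf.1 hx) _ (Subgroup.mem_subgroupOf.1 hy))
  · intro x hx y hy
    exact Subtype.ext (S.hC _ (Subgroup.mem_subgroupOf.1 hx) _ (Subgroup.mem_subgroupOf.1 hy))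
  · exact Finset.card_image_le.trans (Finset.card_filter_le _ _)
  · rintro ⟨g, hg⟩
    refine lt_of_le_of_lt Finset.card_image_le (Finset.card_lt_card ?_)
    rw [Finset.filter_ssubset]
    obtain ⟨a, ha, t, ht, c, hc, h⟩ := S.hT g
    refine ⟨t, ht, ?_⟩
    rintro ⟨a', ha', hat⟩
    refine hg (a * a'⁻¹) (mul_mem ha (inv_mem ha')) (a' * t * c) (mul_mem hat (hCL hc)) ?_
    rw [h]; group

/-- quotients of a double coset group -/
theorem dc_quot {G : Type u} [Group G] (S : DC G) (N : Subgroup G) [N.Normal] :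
    ∃ S' : DC (G ⧸ N), S'.T.card ≤ S.T.card ∧ S'.C = S.C.map (QuotientGroup.mk' N) ∧
      ((∃ ν ∈ N, ¬ ∃ a ∈ S.A, ∃ c ∈ S.C, ν = a * c) → S'.T.card < S.T.card) := by
  classical
  have hA' : ∀ x ∈ S.A.map (QuotientGroup.mk' N), ∀ y ∈ S.A.map (QuotientGroup.mk' N),
      x * y = y * x := by
    rintro _ ⟨x, hx, rfl⟩ _ ⟨y, hy, rfl⟩
    rw [← map_mul, ← map_mul, S.hA x hx y hy]
  have hC' : ∀ x ∈ S.C.map (QuotientGroup.mk' N), ∀ y ∈ S.C.map (QuotientGroup.mk' N),
      x * y = y * x := by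
    rintro _ ⟨x, hx, rfl⟩ _ ⟨y, hy, rfl⟩
    rw [← map_mul, ← map_mul, S.hC x hx y hy]
  by_cases h : ∃ ν ∈ N, ¬ ∃ a ∈ S.A, ∃ c ∈ S.C, ν = a * c
  · obtain ⟨ν, hν, hν'⟩ := h
    obtain ⟨T', hc, hT'⟩ := cover_quotient S.A S.C N S.T S.hT ν hν hν'
    exact ⟨⟨_, _, T', hA', hC', hT'⟩, hc.le, rfl, fun _ => hc⟩
  · refine ⟨⟨_, _, S.T.image (QuotientGroup.mk' N), hA', hC', ?_⟩, Finset.card_image_le, rfl,
      fun h' => absurd h' h⟩
    intro g
    obtain ⟨g, rfl⟩ := QuotientGroup.mk'_surjective N g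
    obtain ⟨a, ha, t, ht, c, hc, hg⟩ := S.hT g
    exact ⟨_, Subgroup.mem_map_of_mem _ ha, _, Finset.mem_image_of_mem _ ht, _,
      Subgroup.mem_map_of_mem _ hc, by rw [← map_mul, ← map_mul, hg]⟩

/-- solubility of centre-by-metabelian groups -/
theorem isSolvable_of_cbm {G : Type u} [Group G] (N : Subgroup G) (h : CbM N) : IsSolvable N := by
  -- `N'' ` is central in `N`
  have h1 : derivedSeries N 3 = ⊥ := by
    have hZ : derivedSeries N 2 ≤ Subgroup.center N := by
      -- commutators of commutators are central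
      have hc : ∀ x y z t : N, ⁅⁅x, y⁆, ⁅z, t⁆⁆ ∈ Subgroup.center N := by
        intro x y z t
        rw [Subgroup.mem_center_iff]
        intro v
        have h2 := h x x.2 y y.2 z z.2 t t.2 v v.2
        rw [commutatorElement_eq_one_iff_commute] at h2
        apply Subtype.ext
        have h3 : ((⁅⁅x, y⁆, ⁅z, t⁆⁆ : N) : G) = ⁅⁅(x : G), (y : G)⁆, ⁅(z : G), (t : G)⁆⁆ := rfl
        show (v : G) * ((⁅⁅x, y⁆, ⁅z, t⁆⁆ : N) : G) = ((⁅⁅x, y⁆, ⁅z, t⁆⁆ : N) : G) * v
        rw [h3]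
        exact h2.symm
      -- pass to the quotient by the centre
      let Z := Subgroup.center N
      have hq : derivedSeries (N ⧸ Z) 2 = ⊥ := by
        have hq' : ∀ x y z t : N ⧸ Z, Commute ⁅x, y⁆ ⁅z, t⁆ := by
          intro x y z t
          obtain ⟨x, rfl⟩ := QuotientGroup.mk'_surjective Z x
          obtain ⟨y, rfl⟩ := QuotientGroup.mk'_surjective Z y
          obtain ⟨z, rfl⟩ := QuotientGroup.mk'_surjective Z z
          obtain ⟨t, rfl⟩ := QuotientGroup.mk'_surjective Z t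
          rw [← commutatorElement_eq_one_iff_commute]
          rw [← map_commutatorElement, ← map_commutatorElement, ← map_commutatorElement,
            QuotientGroup.mk'_apply, QuotientGroup.eq_one_iff]
          exact hc x y z t
        show ⁅⁅(⊤ : Subgroup (N ⧸ Z)), ⊤⁆, ⁅⊤, ⊤⁆⁆ = ⊥
        rw [Subgroup.commutator_eq_bot_iff_le_centralizer, Subgroup.commutator_le]
        intro x _ y _
        rw [Subgroup.mem_centralizer_iff]
        have h3 : ⁅(⊤ : Subgroup (N ⧸ Z)), ⊤⁆ ≤ Subgroup.centralizer {⁅x, y⁆} := by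
          rw [Subgroup.commutator_le]
          intro z _ t _
          rw [Subgroup.mem_centralizer_iff]
          rintro _ rfl
          exact hq' x y z t
        intro k hk
        have h9 := h3 hk
        rw [Subgroup.mem_centralizer_iff] at h9
        exact (h9 _ rfl).symm
      intro x hx
      have h4 : QuotientGroup.mk' Z x ∈ derivedSeries (N ⧸ Z) 2 :=
        map_derivedSeries_le_derivedSeries (QuotientGroup.mk' Z) 2 (Subgroup.mem_map_of_mem _ hx)
      rw [hq, Subgroup.mem_bot, QuotientGroup.mk'_apply, QuotientGroup.eq_one_iff] at h4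
      exact h4
    rw [derivedSeries_succ, Subgroup.commutator_eq_bot_iff_le_centralizer]
    intro x hx
    rw [Subgroup.mem_centralizer_iff]
    intro y _
    have := hZ hx
    rw [Subgroup.mem_center_iff] at this
    exact this y
  exact ⟨3, h1⟩

theorem cbm_of_metab {G : Type u} [Group G] (N : Subgroup G) (h : Metab N) : CbM N := by
  intro x hx y hy z hz t ht v _
  rw [h x hx y hy z hz t ht, commutatorElement_one_left]

theorem virtSol_sub {G : Type u} [Group G] {N : Subgroup G} (h : IsSolvable N) : VirtSol N := by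
  refine ⟨⊤, inferInstance, ?_⟩
  have hN' : Group.IsSolvable N := h
  exact (inferInstance : Group.IsSolvable (⊤ : Subgroup N))

theorem virtSol_of_le {G : Type u} [Group G] {N L : Subgroup G} (h : N ≤ L) (hL : VirtSol L) :
    VirtSol N := by
  have h1 := hL.subgroup (N.subgroupOf L)
  exact h1.of_surjective (Subgroup.subgroupOfEquivOfLe h).toMonoidHom
    (Subgroup.subgroupOfEquivOfLe h).surjective

section step

variable (m : ℕ)
  (ih : ∀ m' < m, ∀ (G : Type u) [Group G] (S : DC G), S.T.card = m' → Amen G → VirtSol G)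
  (hsub : ∀ (G : Type u) [Group G] (H : Subgroup G), Amen G → Amen H)
  (hquot : ∀ (G : Type u) [Group G] (N : Subgroup G) [N.Normal], Amen G → Amen (G ⧸ N))

include ih hsub hquot

theorem step_a {G : Type u} [Group G] (S : DC G) (hS : S.T.card ≤ m) (hG : Amen G)
    (N : Subgroup G) [N.Normal] : derivedSeries N 2 = ⊥ ∨ VirtSol (G ⧸ N) := by
  by_cases hNAC : ∀ n ∈ N, ∃ a ∈ S.A, ∃ c ∈ S.C, n = a * c
  · exact Or.inl (isSolvable_of_le S.A S.C N S.hA S.hC hNAC)
  · right
    push Not at hNAC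
    obtain ⟨ν, hν, hν'⟩ := hNAC
    obtain ⟨S', -, -, h⟩ := dc_quot S N
    have hlt := h ⟨ν, hν, by rintro ⟨a, ha, c, hc, h⟩; exact hν' a ha c hc h⟩
    exact ih _ (hlt.trans_le hS) (G ⧸ N) S' rfl (hquot G N hG)

/-- The largest soluble normal subgroup. -/
theorem step_b {G : Type u} [Group G] (S : DC G) (hS : S.T.card ≤ m) (hG : Amen G)
    (hV : ¬ VirtSol G) : ∃ (R : Subgroup G) (_ : R.Normal), IsSolvable R ∧ ¬ VirtSol (G ⧸ R) ∧
      ∀ N : Subgroup (G ⧸ R), N.Normal → IsSolvable N → N = ⊥ := by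
  have hb : ∀ (N : Subgroup G) [N.Normal], IsSolvable N → ¬ VirtSol (G ⧸ N) := by
    intro N hN hN' h
    exact hV (VirtSol.extension N (virtSol_sub hN') h)
  have hb2 : ∀ N : Subgroup G, N.Normal → IsSolvable N → derivedSeries N 2 = ⊥ := by
    intro N hN hN'
    exact (step_a m ih hsub hquot S hS hG N).resolve_right (hb N hN')
  obtain ⟨R, hRn, hRs, hRl⟩ := exists_largest hb2
  refine ⟨R, hRn, hRs, hb R hRs, fun N hN hNs => ?_⟩
  set M : Subgroup G := N.comap (QuotientGroup.mk' R) with hM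
  have hMn : M.Normal := inferInstance
  have hRM : R ≤ M := by
    intro r hr
    rw [hM, Subgroup.mem_comap, QuotientGroup.mk'_apply, (QuotientGroup.eq_one_iff r).2 hr]
    exact Subgroup.one_mem _
  have hMs : IsSolvable M := by
    let g : M →* N := ((QuotientGroup.mk' R).comp M.subtype).codRestrict N (fun z => z.2)
    let f : R →* M := Subgroup.inclusion hRM
    have hRs' : Group.IsSolvable R := hRs
    have hW' : Group.IsSolvable N := hNs
    refine Group.isSolvable_of_ker_le_range f g ?_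
    intro z hz
    have hz1 : ((z : G) : G ⧸ R) = 1 := congrArg Subtype.val (MonoidHom.mem_ker.1 hz)
    rw [QuotientGroup.eq_one_iff] at hz1
    exact ⟨⟨z, hz1⟩, rfl⟩
  have hMR := hRl M hMn hMs
  rw [eq_bot_iff]
  intro x hx
  obtain ⟨g, rfl⟩ := QuotientGroup.mk'_surjective R x
  have : g ∈ M := hx
  rw [Subgroup.mem_bot, QuotientGroup.mk'_apply, QuotientGroup.eq_one_iff]
  exact hMR this

variable {G : Type u} [Group G] (S : DC G) (hS : S.T.card ≤ m) (hG : Amen G)
    (hV : ¬ VirtSol G) (hR : ∀ N : Subgroup G, N.Normal → IsSolvable N → N = ⊥)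

include hS hG hV hR

omit hV in
theorem step_c1 (N : Subgroup G) [N.Normal] (hN : N ≠ ⊥) : VirtSol (G ⧸ N) :=
  (step_a m ih hsub hquot S hS hG N).resolve_left (fun h => hN (hR N ‹_› ⟨2, h⟩))

theorem step_c2 (N : Subgroup G) [N.Normal] (hN : N ≠ ⊥) : ¬ VirtSol N := fun h =>
  hV (VirtSol.extension N h (step_c1 m ih hsub hquot S hS hG hR N hN))

theorem step_c3 (N : Subgroup G) [N.Normal] (hN : N ≠ ⊥) (g : G) :
    ∃ a ∈ S.A, ∃ n ∈ N, ∃ c ∈ S.C, g = a * n * c := by
  by_contra hcon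
  obtain ⟨S', h1, h2, h3⟩ := dc_sub S (N ⊔ S.C) le_sup_right
  have hlt := h3 ⟨g, fun a ha l hl hgl => hcon (by
    obtain ⟨n, hn, c, hc, rfl⟩ := Subgroup.mem_sup_of_normal_left.1 hl
    exact ⟨a, ha, n, hn, c, hc, by rw [hgl, mul_assoc]⟩)⟩
  have hL : VirtSol (N ⊔ S.C : Subgroup G) :=
    ih _ (hlt.trans_le hS) _ S' rfl (hsub G _ hG)
  exact step_c2 m ih hsub hquot S hS hG hV hR N hN (virtSol_of_le le_sup_left hL)

theorem step_c4 (N : Subgroup G) [N.Normal] (hN : N ≠ ⊥) :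
    derivedSeries G 2 ≤ N := by
  have hprod : ∀ q : G ⧸ N, ∃ a ∈ S.A.map (QuotientGroup.mk' N),
      ∃ c ∈ S.C.map (QuotientGroup.mk' N), q = a * c := by
    intro q
    obtain ⟨g, rfl⟩ := QuotientGroup.mk'_surjective N q
    obtain ⟨a, ha, n, hn, c, hc, hg⟩ := step_c3 m ih hsub hquot S hS hG hV hR N hN g
    refine ⟨_, Subgroup.mem_map_of_mem _ ha, _, Subgroup.mem_map_of_mem _ hc, ?_⟩
    have hn' : QuotientGroup.mk' N n = 1 := by
      rw [QuotientGroup.mk'_apply, QuotientGroup.eq_one_iff]; exact hn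
    rw [hg, map_mul, map_mul, hn', mul_one]
  have hA' : ∀ x ∈ S.A.map (QuotientGroup.mk' N), ∀ y ∈ S.A.map (QuotientGroup.mk' N),
      x * y = y * x := by
    rintro _ ⟨x, hx, rfl⟩ _ ⟨y, hy, rfl⟩
    rw [← map_mul, ← map_mul, S.hA x hx y hy]
  have hC' : ∀ x ∈ S.C.map (QuotientGroup.mk' N), ∀ y ∈ S.C.map (QuotientGroup.mk' N),
      x * y = y * x := by
    rintro _ ⟨x, hx, rfl⟩ _ ⟨y, hy, rfl⟩
    rw [← map_mul, ← map_mul, S.hC x hx y hy]
  have hq' : ∀ x y z t : G ⧸ N, Commute ⁅x, y⁆ ⁅z, t⁆ := by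
    intro x y z t
    have h4 := four hA' hC' (fun i : Fin 4 => (![x, y, z, t] i)⁻¹) (fun _ => hprod _)
      (fun _ => hprod _) (fun _ _ => hprod _) 0 1 2 3
    simpa using h4
  have hq : derivedSeries (G ⧸ N) 2 = ⊥ := by
    show ⁅⁅(⊤ : Subgroup (G ⧸ N)), ⊤⁆, ⁅⊤, ⊤⁆⁆ = ⊥
    rw [Subgroup.commutator_eq_bot_iff_le_centralizer, Subgroup.commutator_le]
    intro x _ y _
    rw [Subgroup.mem_centralizer_iff]
    have h3 : ⁅(⊤ : Subgroup (G ⧸ N)), ⊤⁆ ≤ Subgroup.centralizer {⁅x, y⁆} := by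
      rw [Subgroup.commutator_le]
      intro z _ t _
      rw [Subgroup.mem_centralizer_iff]
      rintro _ rfl
      exact hq' x y z t
    intro k hk
    have h9 := h3 hk
    rw [Subgroup.mem_centralizer_iff] at h9
    exact (h9 _ rfl).symm
  intro x hx
  have h4 : QuotientGroup.mk' N x ∈ derivedSeries (G ⧸ N) 2 :=
    map_derivedSeries_le_derivedSeries (QuotientGroup.mk' N) 2 (Subgroup.mem_map_of_mem _ hx)
  rw [hq, Subgroup.mem_bot, QuotientGroup.mk'_apply, QuotientGroup.eq_one_iff] at h4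
  exact h4

omit ih hsub hquot hS hG hR in
theorem step_c5 : derivedSeries G 2 ≠ ⊥ := by
  intro h
  apply hV
  refine ⟨⊤, inferInstance, ?_⟩
  have : Group.IsSolvable G := ⟨2, h⟩
  exact (inferInstance : Group.IsSolvable (⊤ : Subgroup G))

theorem step_d (star : ∀ (G : Type u) [Group G], Star G → Amen G → False) : False := by
  set W : Subgroup G := derivedSeries G 2 with hWdef
  have hWn : W.Normal := derivedSeries_normal G 2
  have hW0 : W ≠ ⊥ := step_c5 hV
  have hWmin : ∀ N : Subgroup G, N.Normal → N ≠ ⊥ → W ≤ N := fun N hN hN0 =>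
    step_c4 m ih hsub hquot S hS hG hV hR N hN0
  -- `W` is perfect
  have hperf : W ≤ ⁅W, W⁆ := by
    refine hWmin _ inferInstance fun h => hW0 (hR W hWn ?_)
    have h2 : derivedSeries W 1 = ⊥ := by
      rw [derivedSeries_one]
      have h3 := Subgroup.map_subtype_commutator W
      rw [h] at h3
      exact (Subgroup.map_eq_bot_iff_of_injective _ W.subtype_injective).1 h3
    exact ⟨1, h2⟩
  have hcomm : commutator W = ⊤ := by
    rw [eq_top_iff]
    intro x _
    have h3 := Subgroup.map_subtype_commutator W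
    have h4 : (x : G) ∈ (commutator W).map W.subtype := by rw [h3]; exact hperf x.2
    obtain ⟨y, hy, hyx⟩ := h4
    have : y = x := Subtype.ext hyx
    rwa [← this]
  have hW2 : derivedSeries W 2 = ⊤ := by
    rw [derivedSeries_succ, derivedSeries_one, hcomm]
    exact hcomm
  let L : Subgroup G := W ⊔ S.C
  obtain ⟨S', hS'c, hS'C, -⟩ := dc_sub S L le_sup_right
  have hVL : ¬ VirtSol L := fun h =>
    step_c2 m ih hsub hquot S hS hG hV hR W hW0 (virtSol_of_le le_sup_left h)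
  have hGL : Amen L := hsub G L hG
  obtain ⟨R, hRn, hRs, hVQ, hRQ⟩ := step_b m ih hsub hquot S' (hS'c.trans hS) hGL hVL
  obtain ⟨S'', hS''c, hS''C, -⟩ := dc_quot S' R
  have hS'' : S''.T.card ≤ m := (hS''c.trans hS'c).trans hS
  have hGQ : Amen (L ⧸ R) := hquot _ R hGL
  refine star (L ⧸ R) ⟨S'', derivedSeries (L ⧸ R) 2, derivedSeries_normal _ 2, ?_, ?_, ?_, ?_⟩ hGQ
  · intro q
    obtain ⟨l, rfl⟩ := QuotientGroup.mk'_surjective R q
    obtain ⟨l, hl⟩ := l
    obtain ⟨w, hw, c, hc, rfl⟩ := Subgroup.mem_sup_of_normal_left.1 hl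
    let f : W →* (L ⧸ R) := (QuotientGroup.mk' R).comp (Subgroup.inclusion (le_sup_left : W ≤ L))
    have h1 : f ⟨w, hw⟩ ∈ derivedSeries (L ⧸ R) 2 :=
      map_derivedSeries_le_derivedSeries f 2 (Subgroup.mem_map_of_mem _ (by rw [hW2]; trivial))
    refine ⟨f ⟨w, hw⟩, h1, QuotientGroup.mk' R ⟨c, (le_sup_right : S.C ≤ L) hc⟩, ?_, ?_⟩
    · rw [hS''C, hS'C]
      exact Subgroup.mem_map_of_mem _ (Subgroup.mem_subgroupOf.2 hc)
    · show _ = QuotientGroup.mk' R _ * QuotientGroup.mk' R _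
      rw [← map_mul]
      rfl
  · intro N hN hN0
    exact step_c4 m ih hsub hquot S'' hS'' hGQ hVQ hRQ N hN0
  · intro N hN hcbm
    exact hRQ N hN (isSolvable_of_cbm N hcbm)
  · intro K hK hmetab
    exact hVQ ⟨K, hK, isSolvable_of_cbm K (cbm_of_metab K hmetab)⟩

end step

/-- **Part C.** -/
theorem amen_virtSol
    (star : ∀ (G : Type u) [Group G], Star G → Amen G → False)
    (hsub : ∀ (G : Type u) [Group G] (H : Subgroup G), Amen G → Amen H)
    (hquot : ∀ (G : Type u) [Group G] (N : Subgroup G) [N.Normal], Amen G → Amen (G ⧸ N))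
    (G : Type u) [Group G] (S : DC G) (hG : Amen G) : VirtSol G := by
  have claim : ∀ m : ℕ, ∀ (G : Type u) [Group G] (S : DC G), S.T.card = m → Amen G →
      VirtSol G := by
    intro m
    induction m using Nat.strong_induction_on with
    | _ m ih =>
      intro G₀ _ S₀ hS₀ hG₀
      by_contra hV₀
      obtain ⟨R, hRn, hRs, hV, hR⟩ := step_b m ih hsub hquot S₀ hS₀.le hG₀ hV₀
      obtain ⟨S, hSc, -, -⟩ := dc_quot S₀ R
      exact step_d m ih hsub hquot S (hSc.trans hS₀.le) (hquot _ R hG₀) hV hR star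
  exact claim _ G S rfl hG

end Pool.Agent.AQB
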