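import Pool.Agent.AQB.PartC
import Pool.Agent.AQB.AmenSub
import Pool.Agent.AQB.Final

/-!
# Amenable double coset groups are virtually soluble
-/

set_option autoImplicit false

universe u

namespace Pool.Agent.AQB

/-- An amenable group which is a finite union of double cosets `A t C`, `A`, `C` abelian, is
virtually soluble. -/
theorem virtSol_of_amen (G : Type u) [Group G] (S : DC G) (hG : Amen G) :
    Pool.Agent.AO.VirtSol G :=
  amen_virtSol (fun _ _ S h => star_false S h) (fun _ _ H h => h.subgroup H)
    (fun _ _ N _ h => h.quotient N) G S hG

end Pool.Agent.AQB
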