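import Pool.Agent.AQB.MeanB

/-!
# AQB-PickT: step B1 of the blueprint (pigeonhole)

PROOF. Let `S : Star G`, `M` a two-sided mean. (a) `C` is infinite: otherwise `A` has finite index in `G`
(finitely many cosets `A (t c)`), contradiction to `S.hV` with `L = A`.
(b) `g⁻¹ = a t c` shows that `G` is the union of the sets `C t⁻¹ A`, `t ∈ T`, so one of them has positive
mean (`exists_pos_of_cover`); fix this `t` and put `C' = t C t⁻¹`; `C t⁻¹ A = t⁻¹ (C' A)`, so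
`X := {x | ∃ c ∈ C', ∃ a ∈ A, x = c * a}` has positive mean `θ` (`mu_tr`).
(c) Let `c : ℕ → C'` be injective. The sets `{x | x * c i ∈ X}` have mean `θ` (`mu_right`), so by `pigeon`
two of them, `i < j`, meet in positive mean; translating on the right, `T := X ∩ {x | x * e ∈ X}` has
positive mean for `e = (c i)⁻¹ * c j ≠ 1` (`x * c i ∈ X` and `x * c j = (x * c i) * e ∈ X` as `C'` is abelian:
`c j = c i * e`).
(d) t1: `g ∈ tr u T` means `u⁻¹ g ∈ X` and `u⁻¹ g e ∈ X`, so `g⁻¹ u = a c` (`a ∈ A`, `c ∈ C'`) and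
`e⁻¹ g⁻¹ u ∈ A C'`, so `e⁻¹ a ∈ A C'`. The same for `v` (`a'`) and `q` (`a''`). Ito's calculation
(`Pool.Agent.AO.ito`, to be copied into this file or imported) shows that `⁅e, a⁆, ⁅e, a'⁆, ⁅e, a''⁆` commute.
`u e u⁻¹ = g a e a⁻¹ g⁻¹` because `c` commutes with `e`; so
`D e u q = g ⁅e, a⁆⁻¹ ⁅e, a''⁆ g⁻¹`, `D e v q = g ⁅e, a'⁆⁻¹ ⁅e, a''⁆ g⁻¹`.
(e) wt: `X` and `T` are left `C'`-invariant (`e` commutes with nothing needed here), so `tr (w c) T = tr w T`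
for `c ∈ C'`; and `G = W C'` : for `g` take `t⁻¹ g t = w c` (`S.hWC`), `g = (t w t⁻¹) (t c t⁻¹)`.
-/

set_option autoImplicit false

open scoped commutatorElement

namespace Pool.Agent.AQB

variable {G : Type*} [Group G]

/-- Ito's calculation: if `d⁻¹ β` and `e⁻¹ α` lie in `A C` then `[α, d]` and `[β, e]` commute.
(Copy of `Pool.Agent.AO.ito`.) -/
private theorem PickT_ito {A C : Subgroup G} (hA : ∀ x ∈ A, ∀ y ∈ A, x * y = y * x)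
    (hC : ∀ x ∈ C, ∀ y ∈ C, x * y = y * x)
    {d e α β : G} (hd : d ∈ C) (he : e ∈ C) (hα : α ∈ A) (hβ : β ∈ A)
    (h1 : ∃ a ∈ A, ∃ c ∈ C, d⁻¹ * β = a * c) (h2 : ∃ a ∈ A, ∃ c ∈ C, e⁻¹ * α = a * c) :
    Commute (α * d * α⁻¹ * d⁻¹) (β * e * β⁻¹ * e⁻¹) := by
  obtain ⟨x, hx, y, hy, h1⟩ := h1
  obtain ⟨z, hz, w, hw, h2⟩ := h2
  have e1 : β⁻¹ * e⁻¹ * (α * d * α⁻¹ * d⁻¹) * e * β = z * y⁻¹ * z⁻¹ * y := by
    have c1 : d⁻¹ * e = e * d⁻¹ := hC _ (inv_mem hd) _ he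
    have c3 : β⁻¹ * z = z * β⁻¹ := hA _ (inv_mem hβ) _ hz
    have c2 : w * d = d * w := hC _ hw _ hd
    calc β⁻¹ * e⁻¹ * (α * d * α⁻¹ * d⁻¹) * e * β
        = β⁻¹ * (e⁻¹ * α) * d * α⁻¹ * (d⁻¹ * e) * β := by group
      _ = β⁻¹ * (e⁻¹ * α) * d * (e⁻¹ * α)⁻¹ * (d⁻¹ * β) := by rw [c1]; group
      _ = β⁻¹ * (z * w) * d * (z * w)⁻¹ * (x * y) := by rw [h1, h2]
      _ = β⁻¹ * z * (w * d) * w⁻¹ * z⁻¹ * (x * y) := by group
      _ = z * β⁻¹ * d * z⁻¹ * (x * y) := by rw [c2, c3]; group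
      _ = z * (d⁻¹ * β)⁻¹ * (z⁻¹ * x) * y := by group
      _ = z * (x * y)⁻¹ * (x * z⁻¹) * y := by rw [h1, hA _ (inv_mem hz) _ hx]
      _ = z * y⁻¹ * z⁻¹ * y := by group
  have e2 : e⁻¹ * β⁻¹ * (α * d * α⁻¹ * d⁻¹) * β * e = z * y⁻¹ * z⁻¹ * y := by
    have c1 : β⁻¹ * α = α * β⁻¹ := hA _ (inv_mem hβ) _ hα
    have c4 : α⁻¹ * x = x * α⁻¹ := hA _ (inv_mem hα) _ hx
    have c5 : y * e = e * y := hC _ hy _ he
    have c6 : w * y⁻¹ = y⁻¹ * w := hC _ hw _ (inv_mem hy)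
    calc e⁻¹ * β⁻¹ * (α * d * α⁻¹ * d⁻¹) * β * e
        = e⁻¹ * (β⁻¹ * α) * d * α⁻¹ * (d⁻¹ * β) * e := by group
      _ = e⁻¹ * (α * β⁻¹) * d * α⁻¹ * (x * y) * e := by rw [c1, h1]
      _ = e⁻¹ * α * (d⁻¹ * β)⁻¹ * (α⁻¹ * x) * y * e := by group
      _ = e⁻¹ * α * (x * y)⁻¹ * (x * α⁻¹) * y * e := by rw [h1, c4]
      _ = (e⁻¹ * α) * y⁻¹ * α⁻¹ * (y * e) := by group
      _ = (e⁻¹ * α) * y⁻¹ * (e⁻¹ * α)⁻¹ * y := by rw [c5]; group
      _ = (z * w) * y⁻¹ * (z * w)⁻¹ * y := by rw [h2]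
      _ = z * (w * y⁻¹) * w⁻¹ * z⁻¹ * y := by group
      _ = z * y⁻¹ * z⁻¹ * y := by rw [c6]; group
  have e3 : β⁻¹ * e⁻¹ * (α * d * α⁻¹ * d⁻¹) * e * β
      = e⁻¹ * β⁻¹ * (α * d * α⁻¹ * d⁻¹) * β * e := e1.trans e2.symm
  have e4 : (α * d * α⁻¹ * d⁻¹) * (e * β * e⁻¹ * β⁻¹)
      = (e * β * e⁻¹ * β⁻¹) * (α * d * α⁻¹ * d⁻¹) := by
    have := congrArg (fun t => e * β * t * e⁻¹ * β⁻¹) e3
    calc (α * d * α⁻¹ * d⁻¹) * (e * β * e⁻¹ * β⁻¹)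
        = e * β * (β⁻¹ * e⁻¹ * (α * d * α⁻¹ * d⁻¹) * e * β) * e⁻¹ * β⁻¹ := by group
      _ = e * β * (e⁻¹ * β⁻¹ * (α * d * α⁻¹ * d⁻¹) * β * e) * e⁻¹ * β⁻¹ := this
      _ = (e * β * e⁻¹ * β⁻¹) * (α * d * α⁻¹ * d⁻¹) := by group
  have e5 : Commute (α * d * α⁻¹ * d⁻¹) (e * β * e⁻¹ * β⁻¹) := e4
  have e6 : β * e * β⁻¹ * e⁻¹ = (e * β * e⁻¹ * β⁻¹)⁻¹ := by group
  rw [e6]
  exact e5.inv_right

/-- If `C` is finite then `A` has finite index. -/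
private theorem PickT_finiteIndex (S : DC G) (hfin : Finite S.C) : S.A.FiniteIndex := by
  have h1 : Finite (Quotient (QuotientGroup.rightRel S.A)) := by
    let f : S.T × S.C → Quotient (QuotientGroup.rightRel S.A) :=
      fun p => Quotient.mk'' ((p.1 : G) * (p.2 : G))
    have hf : Function.Surjective f := by
      intro x
      induction x using Quotient.inductionOn' with
      | h g =>
        obtain ⟨a, ha, t, ht, c, hc, rfl⟩ := S.hT g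
        refine ⟨(⟨t, ht⟩, ⟨c, hc⟩), ?_⟩
        refine Quotient.sound' ?_
        rw [QuotientGroup.rightRel_apply]
        have e : a * t * c * (t * c)⁻¹ = a := by group
        show a * t * c * (t * c)⁻¹ ∈ S.A
        rw [e]
        exact ha
    exact Finite.of_surjective f hf
  have h2 : Finite (G ⧸ S.A) :=
    Finite.of_equiv _ (QuotientGroup.quotientRightRelEquivQuotientLeftRel S.A)
  exact Subgroup.finiteIndex_of_finite_quotient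

theorem exists_tdata (S : Star G) (M : Mean G) (hM : M.RightInv) : Nonempty (TData M S.W) := by
  classical
  -- (a) C is infinite
  have hinf : Infinite S.C := by
    by_contra h
    rw [not_infinite_iff_finite] at h
    refine S.hV S.A (PickT_finiteIndex S.toDC h) ?_
    intro x hx y hy z hz t ht
    have h1 : ⁅x, y⁆ = 1 := by
      rw [commutatorElement_eq_one_iff_mul_comm]
      exact S.hA x hx y hy
    rw [h1]
    simp
  -- (b) a double coset of positive mean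
  obtain ⟨t, htT, ht⟩ := exists_pos_of_cover M S.T
    (fun t => {x : G | ∃ c ∈ S.C, ∃ a ∈ S.A, x = c * t⁻¹ * a}) (by
      intro x
      obtain ⟨a, ha, t, ht, c, hc, h⟩ := S.hT x⁻¹
      refine ⟨t, ht, c⁻¹, inv_mem hc, a⁻¹, inv_mem ha, ?_⟩
      rw [← inv_inv x, h]
      group)
  -- elements of C' = t C t⁻¹
  let X : Set G := {x | ∃ c ∈ S.C, ∃ a ∈ S.A, x = (t * c * t⁻¹) * a}
  have hX : 0 < M.mu X := by
    have e : tr t {x : G | ∃ c ∈ S.C, ∃ a ∈ S.A, x = c * t⁻¹ * a} = X := by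
      ext x
      show (∃ c ∈ S.C, ∃ a ∈ S.A, t⁻¹ * x = c * t⁻¹ * a) ↔
        ∃ c ∈ S.C, ∃ a ∈ S.A, x = (t * c * t⁻¹) * a
      constructor
      · rintro ⟨c, hc, a, ha, h⟩
        refine ⟨c, hc, a, ha, ?_⟩
        have : x = t * (t⁻¹ * x) := by group
        rw [this, h]
        group
      · rintro ⟨c, hc, a, ha, h⟩
        refine ⟨c, hc, a, ha, ?_⟩
        rw [h]
        group
    rw [← e, mu_tr]
    exact ht
  -- (c) pigeonhole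
  let c : ℕ ↪ S.C := Infinite.natEmbedding S.C
  obtain ⟨i, j, hij, hpos⟩ := pigeon M hX (fun i => {x | x * (t * (c i : G) * t⁻¹) ∈ X})
    (fun i => (mu_right M hM _ X).ge)
  let c0 : G := (c i : G)⁻¹ * (c j : G)
  have hc0 : c0 ∈ S.C := mul_mem (inv_mem (c i).2) (c j).2
  have hc01 : c0 ≠ 1 := by
    intro h
    have h1 : (c i : G) = (c j : G) := by
      have h2 : (c i : G)⁻¹ * (c j : G) = 1 := h
      exact inv_mul_eq_one.1 h2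
    exact hij.ne (c.injective (Subtype.ext h1))
  let e : G := t * c0 * t⁻¹
  have he1 : e ≠ 1 := by
    intro h
    apply hc01
    have h1 : t * c0 * t⁻¹ = 1 := h
    rwa [conj_eq_one_iff] at h1
  let T : Set G := {x | x ∈ X ∧ x * e ∈ X}
  have hTpos : 0 < M.mu T := by
    have h1 : {x : G | x * (t * (c i : G) * t⁻¹) ∈ X} ∩ {x : G | x * (t * (c j : G) * t⁻¹) ∈ X} =
        {x : G | x * (t * (c i : G) * t⁻¹) ∈ T} := by
      ext x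
      have h2 : x * (t * (c i : G) * t⁻¹) * e = x * (t * (c j : G) * t⁻¹) := by
        show x * (t * (c i : G) * t⁻¹) * (t * ((c i : G)⁻¹ * (c j : G)) * t⁻¹) = _
        group
      show (x * (t * (c i : G) * t⁻¹) ∈ X ∧ x * (t * (c j : G) * t⁻¹) ∈ X) ↔
        (x * (t * (c i : G) * t⁻¹) ∈ X ∧ x * (t * (c i : G) * t⁻¹) * e ∈ X)
      rw [h2]
    rw [← mu_right M hM (t * (c i : G) * t⁻¹) T, ← h1]
    exact hpos
  -- (d)
  let C' : Subgroup G := S.C.map (MulAut.conj t).toMonoidHom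
  have memC' : ∀ x, x ∈ C' ↔ ∃ y ∈ S.C, t * y * t⁻¹ = x := by
    intro x
    show x ∈ S.C.map (MulAut.conj t).toMonoidHom ↔ _
    rw [Subgroup.mem_map]
    simp [MulAut.conj_apply]
  have hC' : ∀ x ∈ C', ∀ y ∈ C', x * y = y * x := by
    intro x hx y hy
    obtain ⟨x', hx', rfl⟩ := (memC' x).1 hx
    obtain ⟨y', hy', rfl⟩ := (memC' y).1 hy
    calc t * x' * t⁻¹ * (t * y' * t⁻¹) = t * (x' * y') * t⁻¹ := by group
      _ = t * (y' * x') * t⁻¹ := by rw [S.hC x' hx' y' hy']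
      _ = _ := by group
  have heC' : e ∈ C' := (memC' e).2 ⟨c0, hc0, rfl⟩
  have hfac : ∀ g u : G, g ∈ tr u T → ∃ a ∈ S.A, ∃ k ∈ C', u = g * a * k ∧
      ∃ a' ∈ S.A, ∃ k' ∈ C', e⁻¹ * a = a' * k' := by
    intro g u hg
    have hg1 : u⁻¹ * g ∈ X := hg.1
    have hg2 : u⁻¹ * g * e ∈ X := hg.2
    obtain ⟨c1, hc1, a1, ha1, h1⟩ := hg1
    obtain ⟨c2, hc2, a2, ha2, h2⟩ := hg2
    refine ⟨a1⁻¹, inv_mem ha1, (t * c1 * t⁻¹)⁻¹, inv_mem ((memC' _).2 ⟨c1, hc1, rfl⟩), ?_,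
      a2⁻¹, inv_mem ha2, (t * c2 * t⁻¹)⁻¹ * (t * c1 * t⁻¹),
      mul_mem (inv_mem ((memC' _).2 ⟨c2, hc2, rfl⟩)) ((memC' _).2 ⟨c1, hc1, rfl⟩), ?_⟩
    · have : u = g * (u⁻¹ * g)⁻¹ := by group
      rw [h1] at this
      rw [this]
      group
    · have h3 : e⁻¹ * (u⁻¹ * g)⁻¹ = (u⁻¹ * g * e)⁻¹ := by group
      rw [h2, h1] at h3
      calc e⁻¹ * a1⁻¹ = e⁻¹ * (t * c1 * t⁻¹ * a1)⁻¹ * (t * c1 * t⁻¹) := by group
        _ = (t * c2 * t⁻¹ * a2)⁻¹ * (t * c1 * t⁻¹) := by rw [h3]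
        _ = a2⁻¹ * ((t * c2 * t⁻¹)⁻¹ * (t * c1 * t⁻¹)) := by group
  refine ⟨⟨e, T, he1, hTpos, ?_, ?_⟩⟩
  · rintro u v q ⟨g, ⟨hgu, hgv⟩, hgq⟩
    obtain ⟨a, ha, k, hk, hu, hea⟩ := hfac g u hgu
    obtain ⟨b, hb, l, hl, hv, heb⟩ := hfac g v hgv
    obtain ⟨d, hd, n, hn, hq, hed⟩ := hfac g q hgq
    have key : ∀ (u a k : G), k ∈ C' → u = g * a * k →
        u * e * u⁻¹ = g * (a * e * a⁻¹ * e⁻¹) * e * g⁻¹ := by
      intro u a k hk hu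
      have h1 : k * e = e * k := hC' k hk e heC'
      rw [hu]
      calc g * a * k * e * (g * a * k)⁻¹ = g * a * (k * e) * (g * a * k)⁻¹ := by group
        _ = g * a * (e * k) * (g * a * k)⁻¹ := by rw [h1]
        _ = _ := by group
    have hDu : D e u q = g * ((a * e * a⁻¹ * e⁻¹) * (d * e * d⁻¹ * e⁻¹)⁻¹) * g⁻¹ := by
      rw [D, key u a k hk hu, key q d n hn hq]
      group
    have hDv : D e v q = g * ((b * e * b⁻¹ * e⁻¹) * (d * e * d⁻¹ * e⁻¹)⁻¹) * g⁻¹ := by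
      rw [D, key v b l hl hv, key q d n hn hq]
      group
    have c1 : Commute (a * e * a⁻¹ * e⁻¹) (b * e * b⁻¹ * e⁻¹) :=
      PickT_ito S.hA hC' heC' heC' ha hb heb hea
    have c2 : Commute (a * e * a⁻¹ * e⁻¹) (d * e * d⁻¹ * e⁻¹) :=
      PickT_ito S.hA hC' heC' heC' ha hd hed hea
    have c3 : Commute (d * e * d⁻¹ * e⁻¹) (b * e * b⁻¹ * e⁻¹) :=
      PickT_ito S.hA hC' heC' heC' hd hb heb hed
    have c4 : Commute ((a * e * a⁻¹ * e⁻¹) * (d * e * d⁻¹ * e⁻¹)⁻¹)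
        ((b * e * b⁻¹ * e⁻¹) * (d * e * d⁻¹ * e⁻¹)⁻¹) :=
      (c1.mul_right c2.inv_right).mul_left
        ((c3.mul_right (Commute.refl _).inv_right).inv_left)
    rw [hDu, hDv]
    show _ * _ = _ * _
    have c5 := c4.eq
    calc g * ((a * e * a⁻¹ * e⁻¹) * (d * e * d⁻¹ * e⁻¹)⁻¹) * g⁻¹ *
          (g * ((b * e * b⁻¹ * e⁻¹) * (d * e * d⁻¹ * e⁻¹)⁻¹) * g⁻¹)
        = g * (((a * e * a⁻¹ * e⁻¹) * (d * e * d⁻¹ * e⁻¹)⁻¹) *
          ((b * e * b⁻¹ * e⁻¹) * (d * e * d⁻¹ * e⁻¹)⁻¹)) * g⁻¹ := by group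
      _ = g * (((b * e * b⁻¹ * e⁻¹) * (d * e * d⁻¹ * e⁻¹)⁻¹) *
          ((a * e * a⁻¹ * e⁻¹) * (d * e * d⁻¹ * e⁻¹)⁻¹)) * g⁻¹ := by rw [c5]
      _ = _ := by group
  · intro g
    obtain ⟨w, hw, k, hk, h⟩ := S.hWC (t⁻¹ * g * t)
    refine ⟨t * w * t⁻¹, S.nW.conj_mem w hw t, ?_⟩
    have hg : g = (t * w * t⁻¹) * (t * k * t⁻¹) := by
      have : g = t * (t⁻¹ * g * t) * t⁻¹ := by group
      rw [this, h]
      group
    have hXinv : ∀ k ∈ S.C, ∀ x, x ∈ X → (t * k * t⁻¹) * x ∈ X := by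
      rintro k hk x ⟨c, hc, a, ha, rfl⟩
      refine ⟨k * c, mul_mem hk hc, a, ha, ?_⟩
      group
    have hTinv : ∀ k ∈ S.C, ∀ x, x ∈ T → (t * k * t⁻¹) * x ∈ T := by
      rintro k hk x ⟨h1, h2⟩
      refine ⟨hXinv k hk x h1, ?_⟩
      rw [mul_assoc]
      exact hXinv k hk _ h2
    ext x
    show g⁻¹ * x ∈ T ↔ (t * w * t⁻¹)⁻¹ * x ∈ T
    constructor
    · intro hx
      have := hTinv k hk _ hx
      rw [hg] at this
      have e2 : t * k * t⁻¹ * ((t * w * t⁻¹ * (t * k * t⁻¹))⁻¹ * x) = (t * w * t⁻¹)⁻¹ * x := by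
        group
      rwa [e2] at this
    · intro hx
      have := hTinv k⁻¹ (inv_mem hk) _ hx
      have e2 : t * k⁻¹ * t⁻¹ * ((t * w * t⁻¹)⁻¹ * x) = g⁻¹ * x := by
        rw [hg]
        group
      rwa [e2] at this

end Pool.Agent.AQB
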